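import Pool.Agent.Lib.MP_d98eb9_al.W.Defs2

/-! The Burns-Hale theorem. -/

namespace Pool.Agent.Lib.MP_d98eb9_al.W

open Filter

/-- Every nontrivial finitely generated subgroup maps nontrivially to a left-orderable group. -/
def LocOrd (H : Type) [Group H] : Prop :=
  ∀ L : Subgroup H, L.FG → L ≠ ⊥ →
    ∃ (O : Type) (_ : Group O) (φ : L →* O), LeftOrd O ∧ φ ≠ 1

/-- Locally indicable: every nontrivial finitely generated subgroup maps nontrivially to `ℤ`. -/
def LocInd (H : Type) [Group H] : Prop :=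
  ∀ L : Subgroup H, L.FG → L ≠ ⊥ → ∃ φ : L →* Multiplicative ℤ, φ ≠ 1

variable {H : Type} [Group H]

lemma local_cone (h : LocOrd H) (n : ℕ) : ∀ F : Finset H, F.card ≤ n → ∃ P : Set H,
    (∀ g ∈ P, g ∈ Subgroup.closure (F : Set H)) ∧ (∀ a ∈ P, ∀ b ∈ P, a * b ∈ P) ∧ 1 ∉ P ∧
      ∀ g ∈ F, g ≠ 1 → g ∈ P ∨ g⁻¹ ∈ P := by
  classical
  induction n with
  | zero =>
    intro F hF
    have : F = ∅ := Finset.card_eq_zero.mp (by omega)
    subst this
    exact ⟨∅, by simp, by simp, by simp, by simp⟩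
  | succ n ih =>
    intro F hF
    by_cases hb : Subgroup.closure (F : Set H) = ⊥
    · refine ⟨∅, by simp, by simp, by simp, fun g hg hne => absurd ?_ hne⟩
      have : g ∈ Subgroup.closure (F : Set H) := Subgroup.subset_closure hg
      rwa [hb, Subgroup.mem_bot] at this
    set L := Subgroup.closure (F : Set H) with hL
    obtain ⟨O, _, φ, ⟨o, ho⟩, hφ⟩ := h L ⟨F, rfl⟩ hb
    let K : Subgroup H := φ.ker.map L.subtype
    have hK : ∀ g (hg : g ∈ L), g ∈ K ↔ φ ⟨g, hg⟩ = 1 := by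
      intro g hg
      constructor
      · rintro ⟨x, hx, rfl⟩
        exact hx
      · intro hx
        exact ⟨⟨g, hg⟩, hx, rfl⟩
    have hex : ∃ g ∈ F, g ∉ K := by
      by_contra hc
      push Not at hc
      apply hφ
      have : L ≤ K := (Subgroup.closure_le K).mpr fun g hg => hc g hg
      ext x
      exact (hK x.1 x.2).mp (this x.2)
    obtain ⟨g₀, hg₀, hg₀K⟩ := hex
    have hcard : (F.filter (· ∈ K)).card ≤ n := by
      have : (F.filter (· ∈ K)).card < F.card :=
        Finset.card_lt_card (Finset.filter_ssubset.mpr ⟨g₀, hg₀, hg₀K⟩)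
      omega
    obtain ⟨P, hP1, hP2, hP3, hP4⟩ := ih _ hcard
    have hPK : ∀ g ∈ P, g ∈ K := fun g hg =>
      (Subgroup.closure_le K).mpr (fun x hx => (Finset.mem_filter.mp hx).2) (hP1 g hg)
    have hKL : ∀ g ∈ K, g ∈ L := by
      rintro g ⟨x, -, rfl⟩
      exact x.2
    let _ := o
    have hmul : ∀ a (ha : a ∈ L) b (hb : b ∈ L),
        φ ⟨a * b, L.mul_mem ha hb⟩ = φ ⟨a, ha⟩ * φ ⟨b, hb⟩ := fun a ha b hb => by
      rw [← map_mul]; rfl
    refine ⟨{g | ∃ hg : g ∈ L, 1 < φ ⟨g, hg⟩} ∪ P, ?_, ?_, ?_, ?_⟩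
    · rintro g (⟨hg, -⟩ | hg)
      · exact hg
      · exact hKL g (hPK g hg)
    · rintro a (⟨ha, ha'⟩ | ha) b (⟨hb, hb'⟩ | hb)
      · refine Or.inl ⟨L.mul_mem ha hb, ?_⟩
        rw [hmul a ha b hb]
        have := ho (φ ⟨a, ha⟩) _ _ hb'
        rw [mul_one] at this
        exact lt_trans ha' this
      · have hbL := hKL b (hPK b hb)
        refine Or.inl ⟨L.mul_mem ha hbL, ?_⟩
        rw [hmul a ha b hbL, (hK b hbL).mp (hPK b hb), mul_one]
        exact ha'
      · have haL := hKL a (hPK a ha)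
        refine Or.inl ⟨L.mul_mem haL hb, ?_⟩
        rw [hmul a haL b hb, (hK a haL).mp (hPK a ha), one_mul]
        exact hb'
      · exact Or.inr (hP2 a ha b hb)
    · rintro (⟨hg, hg'⟩ | hg)
      · have : φ ⟨1, hg⟩ = 1 := map_one φ
        rw [this] at hg'
        exact lt_irrefl _ hg'
      · exact hP3 hg
    · intro g hg hne
      have hgL : g ∈ L := Subgroup.subset_closure hg
      rcases lt_trichotomy 1 (φ ⟨g, hgL⟩) with h1 | h1 | h1
      · exact Or.inl (Or.inl ⟨hgL, h1⟩)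
      · rcases hP4 g (Finset.mem_filter.mpr ⟨hg, (hK g hgL).mpr h1.symm⟩) hne with h2 | h2
        · exact Or.inl (Or.inr h2)
        · exact Or.inr (Or.inr h2)
      · refine Or.inr (Or.inl ⟨L.inv_mem hgL, ?_⟩)
        have h2 := ho (φ ⟨g, hgL⟩)⁻¹ _ _ h1
        rw [inv_mul_cancel, mul_one, ← map_inv] at h2
        exact h2

/-- A positive cone gives a left order. -/
lemma leftOrd_of_cone (P : Set H) (h1 : ∀ a ∈ P, ∀ b ∈ P, a * b ∈ P) (h2 : 1 ∉ P)
    (h3 : ∀ g, g ≠ 1 → g ∈ P ∨ g⁻¹ ∈ P) : LeftOrd H := by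
  classical
  let r : H → H → Prop := fun a b => a⁻¹ * b ∈ P
  have : IsStrictTotalOrder H r :=
    { irrefl := fun a ha => h2 (by simpa [r] using ha)
      trans := fun a b c hab hbc => by
        have := h1 _ hab _ hbc
        simpa [r, mul_assoc] using this
      trichotomous := fun a b hab hba => by
        by_contra hne
        have : a⁻¹ * b ≠ 1 := fun h => hne (inv_mul_eq_one.mp h)
        rcases h3 _ this with h | h
        · exact hab h
        · exact hba (by simpa [r] using h) }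
  refine ⟨linearOrderOfSTO r, fun a b c hbc => ?_⟩
  change (a * b)⁻¹ * (a * c) ∈ P
  change b⁻¹ * c ∈ P at hbc
  simpa [mul_assoc] using hbc

/-- Burns-Hale. -/
theorem LocOrd.leftOrd (h : LocOrd H) : LeftOrd H := by
  classical
  choose P _ hP2 hP3 hP4 using fun F : Finset H => local_cone h F.card F le_rfl
  let U : Ultrafilter (Finset H) := Ultrafilter.of atTop
  have hU : (U : Filter (Finset H)) ≤ atTop := Ultrafilter.of_le _
  refine leftOrd_of_cone {g | ∀ᶠ F in (U : Filter (Finset H)), g ∈ P F} ?_ ?_ ?_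
  · intro a ha b hb
    exact (Eventually.and ha hb).mono fun F hF => hP2 F a hF.1 b hF.2
  · intro h1
    obtain ⟨F, hF⟩ := Eventually.exists h1
    exact hP3 F hF
  · intro g hg
    have : ∀ᶠ F in (U : Filter (Finset H)), g ∈ P F ∨ g⁻¹ ∈ P F :=
      ((eventually_ge_atTop ({g} : Finset H)).filter_mono hU).mono fun F hF =>
        hP4 F g (hF (Finset.mem_singleton_self g)) hg
    exact Ultrafilter.eventually_or.mp this

lemma leftOrd_mult (A : Type) [AddCommGroup A] [LinearOrder A] [IsOrderedAddMonoid A] :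
    LeftOrd (Multiplicative A) :=
  ⟨inferInstance, fun a _ _ h => mul_lt_mul_right h a⟩

lemma LocInd.locOrd (h : LocInd H) : LocOrd H := fun L hL hb => by
  obtain ⟨φ, hφ⟩ := h L hL hb
  exact ⟨_, _, φ, leftOrd_mult ℤ, hφ⟩

/-- Locally indicable groups are left-orderable. -/
theorem LocInd.leftOrd (h : LocInd H) : LeftOrd H := h.locOrd.leftOrd

/-- The same with homomorphisms to `ℚ`. -/
theorem leftOrd_of_rat
    (h : ∀ L : Subgroup H, L.FG → L ≠ ⊥ → ∃ φ : L →* Multiplicative ℚ, φ ≠ 1) : LeftOrd H :=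
  LocOrd.leftOrd fun L hL hb => by
    obtain ⟨φ, hφ⟩ := h L hL hb
    exact ⟨_, _, φ, leftOrd_mult ℚ, hφ⟩

/-- A group that injects in a left-orderable group is left-orderable. -/
lemma LeftOrd.of_injective {O : Type} [Group O] (h : LeftOrd O) (f : H →* O)
    (hf : Function.Injective f) : LeftOrd H := by
  obtain ⟨o, ho⟩ := h
  let _ := o
  refine ⟨LinearOrder.lift' f hf, fun a b c hbc => ?_⟩
  change f (a * b) < f (a * c)
  rw [map_mul, map_mul]
  exact ho _ _ _ hbc

end Pool.Agent.Lib.MP_d98eb9_al.W
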