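import Mathlib

/-! Duals of finitely generated projective `ℤ[G]`-modules as modules over the group ring of a
subgroup. -/

namespace Pool.Agent.Lib.MP_d98eb9_al

open MonoidAlgebra

abbrev ZG (G : Type) [Group G] : Type := MonoidAlgebra ℤ G

variable {G : Type} [Group G]

/-- Additive extension of a function on `G` to the group ring. -/
noncomputable def lsum {M : Type} [AddCommGroup M] (u : G → M) : ZG G →+ M :=
  (Finsupp.liftAddHom (fun g => zmultiplesHom M (u g))).comp coeffAddEquiv.toAddMonoidHom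

@[simp] theorem lsum_single {M : Type} [AddCommGroup M] (u : G → M) (g : G) (n : ℤ) :
    lsum u (single g n) = n • u g := by
  simp [lsum]

theorem single_eq_zsmul (g : G) (n : ℤ) : (single g n : ZG G) = n • single g 1 := by
  simp

theorem hom_ext {M : Type} [AddCommGroup M] {f f' : ZG G →+ M}
    (h : ∀ g, f (single g 1) = f' (single g 1)) (r : ZG G) : f r = f' r := by
  induction r using MonoidAlgebra.induction_linear with
  | zero => simp
  | add a b ha hb => simp [ha, hb]
  | single g n => rw [single_eq_zsmul, map_zsmul, map_zsmul, h]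

theorem ind1 {p : ZG G → Prop} (h0 : p 0) (hadd : ∀ a b, p a → p b → p (a + b))
    (hneg : ∀ a, p a → p (-a)) (hs : ∀ g, p (single g 1)) (r : ZG G) : p r := by
  induction r using MonoidAlgebra.induction_linear with
  | zero => exact h0
  | add a b ha hb => exact hadd a b ha hb
  | single g n =>
    rw [single_eq_zsmul]
    induction n using Int.induction_on with
    | zero => simpa using h0
    | succ k ih => rw [add_smul, one_smul]; exact hadd _ _ ih (hs g)
    | pred k ih => rw [sub_smul, one_smul, sub_eq_add_neg]; exact hadd _ _ ih (hneg _ (hs g))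

/-- An equivariant additive map is linear over the group ring. -/
def mkLin {M N : Type} [AddCommGroup M] [AddCommGroup N] [Module (ZG G) M] [Module (ZG G) N]
    (f : M →+ N) (h : ∀ (g : G) (m : M), f ((single g 1 : ZG G) • m) = (single g 1 : ZG G) • f m) :
    M →ₗ[ZG G] N where
  toFun := f
  map_add' := f.map_add
  map_smul' r m := by
    induction r using ind1 with
    | h0 => simp
    | hadd a b ha hb => simp only [add_smul, map_add, ha, hb, RingHom.id_apply]
    | hneg a ha => simp only [neg_smul, map_neg, ha, RingHom.id_apply]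
    | hs g => exact h g m

@[simp] theorem mkLin_apply {M N : Type} [AddCommGroup M] [AddCommGroup N] [Module (ZG G) M]
    [Module (ZG G) N] (f : M →+ N) (h) (m : M) : mkLin (G := G) f h m = f m := rfl

theorem w_mul_inv (w : G →* ℤ) (g : G) : w g * w g⁻¹ = 1 := by rw [← map_mul]; simp

theorem w_inv_mul (w : G →* ℤ) (g : G) : w g⁻¹ * w g = 1 := by rw [← map_mul]; simp

variable (w : G →* ℤ) (C : Subgroup G)

noncomputable def thetaHom : C →* (ZG G)ᵐᵒᵖ where
  toFun c := MulOpposite.op (single (c : G)⁻¹ (w c))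
  map_one' := by simp [one_def]
  map_mul' c d := by
    rw [← MulOpposite.op_mul, single_mul_single]
    simp [mul_comm]

noncomputable def theta : ZG C →+* (ZG G)ᵐᵒᵖ :=
  (MonoidAlgebra.lift ℤ (ZG G)ᵐᵒᵖ C (thetaHom w C)).toRingHom

theorem theta_single (c : C) :
    theta w C (single c 1) = MulOpposite.op (single (c : G)⁻¹ (w c)) := by
  simp [theta, thetaHom]

/-- The dual module, with the twisted left action of `ℤ[C]`. -/
def Du (_w : G →* ℤ) (_C : Subgroup G) (P : Type) [AddCommGroup P] [Module (ZG G) P] : Type :=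
  P →ₗ[ZG G] ZG G

variable (P : Type) [AddCommGroup P] [Module (ZG G) P]

noncomputable instance : AddCommGroup (Du w C P) := inferInstanceAs (AddCommGroup (P →ₗ[ZG G] ZG G))

noncomputable instance : Module (ZG C) (Du w C P) :=
  Module.compHom (P →ₗ[ZG G] ZG G) (theta w C)

variable {w C P}

/-- The underlying linear map. -/
def Du.ev (q : Du w C P) : P →ₗ[ZG G] ZG G := q

/-- A linear map as an element of the dual. -/
def Du.mk (w : G →* ℤ) (C : Subgroup G) (q : P →ₗ[ZG G] ZG G) : Du w C P := q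

@[simp] theorem Du.ev_mk (q : P →ₗ[ZG G] ZG G) : (Du.mk w C q).ev = q := rfl
@[simp] theorem Du.ev_add (q q' : Du w C P) : (q + q').ev = q.ev + q'.ev := rfl
@[simp] theorem Du.ev_sub (q q' : Du w C P) : (q - q').ev = q.ev - q'.ev := rfl
@[simp] theorem Du.ev_zero : (0 : Du w C P).ev = 0 := rfl
@[simp] theorem Du.ev_neg (q : Du w C P) : (-q).ev = -q.ev := rfl
@[simp] theorem Du.ev_zsmul (n : ℤ) (q : Du w C P) : (n • q).ev = n • q.ev := rfl

theorem Du.ext {q q' : Du w C P} (h : ∀ x, q.ev x = q'.ev x) : q = q' :=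
  LinearMap.ext (f := q.ev) (g := q'.ev) h

/-- Evaluation as an additive map. -/
noncomputable def Du.evAt (w : G →* ℤ) (C : Subgroup G) (x : P) : Du w C P →+ ZG G :=
  AddMonoidHom.mk' (fun q => q.ev x) (fun _ _ => rfl)

@[simp] theorem Du.evAt_apply (x : P) (q : Du w C P) : Du.evAt w C x q = q.ev x := rfl

theorem Du.ev_sum {J : Type} (T : Finset J) (q : J → Du w C P) (x : P) :
    (∑ j ∈ T, q j).ev x = ∑ j ∈ T, (q j).ev x := map_sum (Du.evAt w C x) q T

theorem Du.ev_single_smul (c : C) (q : Du w C P) (x : P) :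
    ((single c 1 : ZG C) • q).ev x = q.ev x * single (c : G)⁻¹ (w c) := by
  change (theta w C (single c 1) • q.ev) x = _
  rw [theta_single]
  rfl

/-- Transpose of a linear map. -/
noncomputable def Du.map (w : G →* ℤ) (C : Subgroup G) {P' : Type} [AddCommGroup P']
    [Module (ZG G) P'] (d : P' →ₗ[ZG G] P) : Du w C P →ₗ[ZG C] Du w C P' where
  toFun q := Du.mk w C (q.ev ∘ₗ d)
  map_add' _ _ := rfl
  map_smul' _ _ := rfl

@[simp] theorem Du.map_ev {P' : Type} [AddCommGroup P'] [Module (ZG G) P'] (d : P' →ₗ[ZG G] P)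
    (q : Du w C P) (y : P') : (Du.map w C d q).ev y = q.ev (d y) := rfl

/-- Right multiplication of a functional. -/
noncomputable def rm (w : G →* ℤ) (C : Subgroup G) (f : P →ₗ[ZG G] ZG G) : ZG G →+ Du w C P :=
  AddMonoidHom.mk' (fun r => Du.mk w C (MulOpposite.op r • f))
    (fun a b => Du.ext fun x => by simp [mul_add])

@[simp] theorem rm_ev (f : P →ₗ[ZG G] ZG G) (r : ZG G) (x : P) : (rm w C f r).ev x = f x * r := rfl

theorem rm_mul (f : P →ₗ[ZG G] ZG G) (r : ZG G) (c : C) :
    rm w C f (r * single (c : G)⁻¹ (w c)) = (single c 1 : ZG C) • rm w C f r :=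
  Du.ext fun x => by rw [Du.ev_single_smul, rm_ev, rm_ev, mul_assoc]

open Classical in
/-- The twisted projection `ℤ[G] → ℤ[C]`. -/
noncomputable def pr (w : G →* ℤ) (C : Subgroup G) : ZG G →+ ZG C :=
  lsum fun g => if h : g ∈ C then single (⟨g, h⟩ : C)⁻¹ (w g) else 0

theorem pr_single_mem (c : C) : pr w C (single (c : G) 1) = single c⁻¹ (w c) := by
  simp [pr]

theorem pr_single_not_mem {g : G} (h : g ∉ C) (n : ℤ) : pr w C (single g n) = 0 := by
  simp [pr, h]

theorem pr_mul_right (r : ZG G) (c : C) :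
    pr w C (r * single (c : G)⁻¹ (w c)) = single c 1 * pr w C r := by
  refine hom_ext (f := (pr w C).comp (AddMonoidHom.mulRight _))
    (f' := (AddMonoidHom.mulLeft _).comp (pr w C)) (fun g => ?_) r
  change pr w C (single g 1 * single (c : G)⁻¹ (w c)) = single c 1 * pr w C (single g 1)
  rw [single_mul_single]
  by_cases h : g ∈ C
  · lift g to C using h
    rw [one_mul, single_eq_zsmul, map_zsmul, ← Subgroup.coe_inv, ← Subgroup.coe_mul, pr_single_mem,
      pr_single_mem, single_mul_single]
    simp only [Subgroup.coe_mul, Subgroup.coe_inv, map_mul, smul_single, smul_eq_mul, one_mul,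
      mul_inv_rev, inv_inv]
    congr 1
    linear_combination (w g) * w_mul_inv w c
  · rw [pr_single_not_mem h, mul_zero, pr_single_not_mem]
    exact fun h' => h (by simpa using C.mul_mem h' c.2)

theorem pr_mul_left (r : ZG G) (c : C) :
    pr w C (single (c : G) 1 * r) = pr w C r * single c⁻¹ (w c) := by
  refine hom_ext (f := (pr w C).comp (AddMonoidHom.mulLeft _))
    (f' := (AddMonoidHom.mulRight _).comp (pr w C)) (fun g => ?_) r
  change pr w C (single (c : G) 1 * single g 1) = pr w C (single g 1) * single c⁻¹ (w c)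
  rw [single_mul_single, one_mul]
  by_cases h : g ∈ C
  · lift g to C using h
    rw [← Subgroup.coe_mul, pr_single_mem, pr_single_mem, single_mul_single]
    simp [mul_comm]
  · rw [pr_single_not_mem h, zero_mul, pr_single_not_mem]
    exact fun h' => h (by simpa using C.mul_mem (C.inv_mem c.2) h')

/-- The coordinate of a functional at `x`. -/
noncomputable def prAt (w : G →* ℤ) (C : Subgroup G) (x : P) : Du w C P →ₗ[ZG C] ZG C :=
  mkLin ((pr w C).comp (Du.evAt w C x)) fun c q => by
    change pr w C (((single c 1 : ZG C) • q).ev x) = single c 1 * pr w C (q.ev x)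
    rw [Du.ev_single_smul, pr_mul_right]

@[simp] theorem prAt_apply (x : P) (q : Du w C P) : prAt w C x q = pr w C (q.ev x) := rfl

theorem out_inv_mul_mem (g : G) : ((g : G ⧸ C).out)⁻¹ * g ∈ C :=
  QuotientGroup.eq.mp (QuotientGroup.out_eq' (g : G ⧸ C))

/-- All coordinates of an element of the group ring. -/
noncomputable def kap (w : G →* ℤ) (C : Subgroup G) : ZG G →+ (G ⧸ C →₀ ZG C) :=
  lsum fun g => Finsupp.single (g : G ⧸ C) (pr w C (single (((g : G ⧸ C).out)⁻¹ * g) 1))

theorem kap_apply (r : ZG G) (y : G ⧸ C) : kap w C r y = pr w C (single y.out⁻¹ 1 * r) := by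
  refine hom_ext (f := (Finsupp.applyAddHom y).comp (kap w C))
    (f' := (pr w C).comp (AddMonoidHom.mulLeft _)) (fun g => ?_) r
  change kap w C (single g 1) y = pr w C (single y.out⁻¹ 1 * single g 1)
  rw [single_mul_single, one_mul, kap, lsum_single, one_smul]
  by_cases h : (g : G ⧸ C) = y
  · subst h
    simp
  · rw [Finsupp.single_eq_of_ne (Ne.symm h), pr_single_not_mem]
    intro h'
    apply h
    rw [← QuotientGroup.out_eq' y]
    exact (QuotientGroup.eq.mpr h').symm

theorem kap_mul (r : ZG G) (c : C) :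
    kap w C (r * single (c : G)⁻¹ (w c)) = (single c 1 : ZG C) • kap w C r := by
  ext1 y
  rw [Finsupp.smul_apply, kap_apply, kap_apply, ← mul_assoc, pr_mul_right, smul_eq_mul]

theorem lc_kap (f : P →ₗ[ZG G] ZG G) (r : ZG G) :
    Finsupp.linearCombination (ZG C) (fun y : G ⧸ C => rm w C f (single y.out 1)) (kap w C r) =
      rm w C f r := by
  refine hom_ext (f := (Finsupp.linearCombination (ZG C)
    (fun y : G ⧸ C => rm w C f (single y.out 1))).toAddMonoidHom.comp (kap w C))
    (f' := rm w C f) (fun g => ?_) r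
  change Finsupp.linearCombination (ZG C) _ (kap w C (single g 1)) = _
  rw [kap, lsum_single, one_smul, Finsupp.linearCombination_single]
  have h := pr_single_mem (w := w) (⟨_, out_inv_mul_mem g⟩ : C)
  rw [h, single_eq_zsmul, smul_assoc, ← rm_mul, ← map_zsmul, single_mul_single]
  congr 1
  simp only [Subgroup.coe_inv, inv_inv, smul_single, smul_eq_mul, one_mul, mul_inv_cancel_left]
  rw [w_mul_inv]

/-- A finite dual basis. -/
structure DB (G : Type) [Group G] (P : Type) [AddCommGroup P] [Module (ZG G) P] where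
  n : ℕ
  x : Fin n → P
  f : Fin n → P →ₗ[ZG G] ZG G
  sum_eq : ∀ p, ∑ i, f i p • x i = p

theorem exists_DB (P : Type) [AddCommGroup P] [Module (ZG G) P] [Module.Finite (ZG G) P]
    [Module.Projective (ZG G) P] : Nonempty (DB G P) := by
  obtain ⟨n, f, g, -, -, h⟩ := Module.Finite.exists_comp_eq_id_of_projective (ZG G) P
  refine ⟨⟨n, fun i => f (Pi.single i 1), fun i => LinearMap.proj i ∘ₗ g, fun p => ?_⟩⟩
  have h1 : f (g p) = p := LinearMap.congr_fun h p
  conv_rhs => rw [← h1, ← Finset.univ_sum_single (g p), map_sum]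
  refine Finset.sum_congr rfl fun i _ => ?_
  rw [← map_smul, ← Pi.single_smul, smul_eq_mul, mul_one]
  rfl

theorem DB.dual_eq (B : DB G P) (q : Du w C P) : q = ∑ i, rm w C (B.f i) (q.ev (B.x i)) := by
  refine Du.ext fun p => ?_
  rw [Du.ev_sum]
  conv_lhs => rw [← B.sum_eq p, map_sum]
  simp

theorem DB.split (B : DB G P) : ∃ (s : Du w C P →ₗ[ZG C] (Fin B.n → (G ⧸ C →₀ ZG C)))
    (t : (Fin B.n → (G ⧸ C →₀ ZG C)) →ₗ[ZG C] Du w C P), t ∘ₗ s = LinearMap.id := by
  refine ⟨LinearMap.pi fun i => mkLin ((kap w C).comp (Du.evAt w C (B.x i))) fun c q => ?_,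
    ∑ i, Finsupp.linearCombination (ZG C) (fun y : G ⧸ C => rm w C (B.f i) (single y.out 1)) ∘ₗ
      LinearMap.proj i, LinearMap.ext fun q => ?_⟩
  · change kap w C (((single c 1 : ZG C) • q).ev (B.x i)) = _ • kap w C (q.ev (B.x i))
    rw [Du.ev_single_smul, kap_mul]
  · rw [LinearMap.comp_apply, LinearMap.sum_apply, LinearMap.id_apply]
    conv_rhs => rw [B.dual_eq q]
    exact Finset.sum_congr rfl fun i _ => lc_kap _ _

theorem DB.projective (B : DB G P) : Module.Projective (ZG C) (Du w C P) := by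
  obtain ⟨s, t, h⟩ := B.split (w := w) (C := C)
  exact Module.Projective.of_split s t h

theorem DB.finite (B : DB G P) [Finite (G ⧸ C)] : Module.Finite (ZG C) (Du w C P) := by
  obtain ⟨s, t, h⟩ := B.split (w := w) (C := C)
  exact Module.Finite.of_surjective t fun q => ⟨s q, LinearMap.congr_fun h q⟩

section Div

variable {S D : Type} [Ring S] [Ring D] (ι : S →+* D)

theorem rel_map {Y J : Type} (T : Finset J) (a : J → D) (v : J → Y →₀ S)
    (h : ∀ y, ∑ j ∈ T, a j * ι (v j y) = 0) (ν : (Y →₀ S) →ₗ[S] S) :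
    ∑ j ∈ T, a j * ι (ν (v j)) = 0 := by
  classical
  have hν : ∀ j ∈ T, ν (v j) = ∑ y ∈ T.biUnion fun j => (v j).support,
      v j y * ν (Finsupp.single y 1) := by
    intro j hj
    conv_lhs => rw [← Finsupp.sum_single (v j),
      Finsupp.sum_of_support_subset _ (Finset.subset_biUnion_of_mem (fun j => (v j).support) hj)
        _ (by simp), map_sum]
    refine Finset.sum_congr rfl fun y _ => ?_
    rw [← smul_eq_mul, ← map_smul, Finsupp.smul_single, smul_eq_mul, mul_one]
  rw [Finset.sum_congr rfl fun j hj => by rw [hν j hj, map_sum, Finset.mul_sum], Finset.sum_comm]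
  refine Finset.sum_eq_zero fun y _ => ?_
  simp only [map_mul, ← mul_assoc]
  rw [← Finset.sum_mul, h, zero_mul]

end Div

variable {D : Type} [Ring D] (ι : ZG C →+* D)

theorem DB.rel (B : DB G P) {J : Type} (T : Finset J) (a : J → D) (q : J → Du w C P)
    (h : ∀ x, ∑ j ∈ T, a j * ι (pr w C ((q j).ev x)) = 0) (μ : Du w C P →ₗ[ZG C] ZG C) :
    ∑ j ∈ T, a j * ι (μ (q j)) = 0 := by
  have hμ : ∀ j, μ (q j) = ∑ i, (μ ∘ₗ Finsupp.linearCombination (ZG C)
      (fun y : G ⧸ C => rm w C (B.f i) (single y.out 1))) (kap w C ((q j).ev (B.x i))) := by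
    intro j
    conv_lhs => rw [B.dual_eq (q j), map_sum]
    exact Finset.sum_congr rfl fun i _ => by rw [LinearMap.comp_apply, lc_kap]
  rw [Finset.sum_congr rfl fun j _ => by rw [hμ j, map_sum, Finset.mul_sum], Finset.sum_comm]
  refine Finset.sum_eq_zero fun i _ => rel_map ι T a _ (fun y => ?_) _
  simp only [kap_apply]
  simpa using h ((single y.out⁻¹ 1 : ZG G) • B.x i)

theorem DB.repr (B : DB G P) (Ψ : P →+ D)
    (hΨ : ∀ (c : C) (x : P), Ψ ((single (c : G) 1 : ZG G) • x) = Ψ x * ι (single c⁻¹ (w c)))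
    (hc : ∀ x : P, {y : G ⧸ C | Ψ ((single y.out⁻¹ 1 : ZG G) • x) ≠ 0}.Finite) :
    ∃ (T : Finset (Fin B.n × G ⧸ C)) (b : Fin B.n × G ⧸ C → D) (t : Fin B.n × G ⧸ C → Du w C P),
      ∀ x, Ψ x = ∑ j ∈ T, b j * ι (pr w C ((t j).ev x)) := by
  classical
  let T : Finset (G ⧸ C) := Finset.univ.biUnion fun i => (hc (B.x i)).toFinset
  have key : ∀ (i : Fin B.n) (r : ZG G), Ψ (r • B.x i) =
      ∑ y ∈ T, Ψ ((single y.out⁻¹ 1 : ZG G) • B.x i) * ι (pr w C (r * single y.out 1)) := by
    intro i r
    induction r using ind1 with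
    | h0 => simp
    | hadd a b ha hb => simp only [add_smul, map_add, ha, hb, add_mul, mul_add, Finset.sum_add_distrib]
    | hneg a ha => simp only [neg_smul, map_neg, ha, neg_mul, mul_neg, Finset.sum_neg_distrib]
    | hs h =>
      have hm : h * ((h⁻¹ : G) : G ⧸ C).out ∈ C := by
        simpa using C.inv_mem (out_inv_mul_mem (C := C) h⁻¹)
      have e : Ψ ((single h 1 : ZG G) • B.x i) =
          Ψ ((single ((h⁻¹ : G) : G ⧸ C).out⁻¹ 1 : ZG G) • B.x i) *
            ι (pr w C (single h 1 * single ((h⁻¹ : G) : G ⧸ C).out 1)) := by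
        rw [single_mul_single, one_mul, pr_single_mem (⟨_, hm⟩ : C), ← hΨ, smul_smul,
          single_mul_single]
        simp
      rw [e, Finset.sum_eq_single ((h⁻¹ : G) : G ⧸ C)]
      · intro y _ hy
        rw [single_mul_single, pr_single_not_mem, map_zero, mul_zero]
        intro h'
        apply hy
        rw [← QuotientGroup.out_eq' y]
        exact (QuotientGroup.eq.mpr (by simpa using h')).symm
      · intro hn
        have : Ψ ((single ((h⁻¹ : G) : G ⧸ C).out⁻¹ 1 : ZG G) • B.x i) = 0 := by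
          by_contra hne
          exact hn (Finset.mem_biUnion.mpr ⟨i, Finset.mem_univ _, by simpa using hne⟩)
        rw [this, zero_mul]
  refine ⟨Finset.univ ×ˢ T, fun j => Ψ ((single j.2.out⁻¹ 1 : ZG G) • B.x j.1),
    fun j => rm w C (B.f j.1) (single j.2.out 1), fun x => ?_⟩
  rw [Finset.sum_product]
  conv_lhs => rw [← B.sum_eq x, map_sum]
  exact Finset.sum_congr rfl fun i _ => key i _

end Pool.Agent.Lib.MP_d98eb9_al
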