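import Mathlib

/-! In an infinite connected locally finite Schreier graph every vertex can choose a neighbour so
that there is no infinite backward chain. -/

namespace Pool.Agent.Lib.MP_d98eb9_al

open Relation

variable {G Y : Type} [Group G] [MulAction G Y]

/-- One step outside `A`. -/
def Step (S : Finset G) (A : Set Y) (a b : Y) : Prop := a ∉ A ∧ b ∉ A ∧ ∃ s ∈ S, b = s • a

/-- Balls. -/
def ball (S : Finset G) (y₀ : Y) : ℕ → Set Y
  | 0 => ∅
  | n + 1 => insert y₀ (ball S y₀ n ∪ ⋃ s ∈ S, (fun y => s • y) '' ball S y₀ n)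

theorem ball_finite (S : Finset G) (y₀ : Y) (n : ℕ) : (ball S y₀ n).Finite := by
  induction n with
  | zero => exact Set.finite_empty
  | succ n ih => exact (ih.union (S.finite_toSet.biUnion fun s _ => ih.image _)).insert _

theorem ball_succ (S : Finset G) (y₀ : Y) (n : ℕ) : ball S y₀ n ⊆ ball S y₀ (n + 1) :=
  fun _ h => Or.inr (Or.inl h)

theorem smul_mem_ball {S : Finset G} {y₀ y : Y} {n : ℕ} {s : G} (hs : s ∈ S)
    (h : y ∈ ball S y₀ n) : s • y ∈ ball S y₀ (n + 1) :=
  Or.inr (Or.inr (Set.mem_biUnion hs ⟨y, h, rfl⟩))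

theorem Step.symm' {S : Finset G} (hS : ∀ s ∈ S, s⁻¹ ∈ S) {A : Set Y} {a b : Y}
    (h : Step S A a b) : Step S A b a := by
  obtain ⟨ha, hb, s, hs, rfl⟩ := h
  exact ⟨hb, ha, s⁻¹, hS s hs, by simp⟩

theorem reach_symm {S : Finset G} (hS : ∀ s ∈ S, s⁻¹ ∈ S) {A : Set Y} {a b : Y}
    (h : ReflTransGen (Step S A) a b) : ReflTransGen (Step S A) b a := by
  induction h with
  | refl => exact ReflTransGen.refl
  | tail _ h2 ih => exact ReflTransGen.head (h2.symm' hS) ih

theorem reach_all {S : Finset G} (hS : ∀ s ∈ S, s⁻¹ ∈ S) (hgen : Subgroup.closure (S : Set G) = ⊤)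
    (g : G) (y : Y) : ReflTransGen (Step S (∅ : Set Y)) y (g • y) := by
  have hg : g ∈ Subgroup.closure (S : Set G) := hgen ▸ Subgroup.mem_top g
  induction hg using Subgroup.closure_induction generalizing y with
  | mem s hs => exact ReflTransGen.single ⟨by simp, by simp, s, hs, rfl⟩
  | one => simpa using ReflTransGen.refl
  | mul a b _ _ ha hb => rw [mul_smul]; exact (hb y).trans (ha _)
  | inv a _ ha =>
    have := reach_symm hS (ha (a⁻¹ • y))
    simpa using this

theorem exists_succ [Infinite Y] [MulAction.IsPretransitive G Y] (S : Finset G)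
    (hS : ∀ s ∈ S, s⁻¹ ∈ S) (hgen : Subgroup.closure (S : Set G) = ⊤) :
    ∃ σ : Y → G, (∀ y, σ y ∈ S) ∧ WellFounded (fun y' y : Y => σ y' • y' = y) := by
  classical
  obtain ⟨y₀⟩ : Nonempty Y := inferInstance
  have hall : ∀ a b : Y, ReflTransGen (Step S (∅ : Set Y)) a b := by
    intro a b
    obtain ⟨g, rfl⟩ := MulAction.exists_smul_eq G a b
    exact reach_all hS hgen g a
  have hcov : ∀ y : Y, ∃ n, y ∈ ball S y₀ n := by
    intro y
    induction hall y₀ y with
    | refl => exact ⟨1, Or.inl rfl⟩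
    | tail _ h2 ih =>
      obtain ⟨n, hn⟩ := ih
      obtain ⟨-, -, s, hs, rfl⟩ := h2
      exact ⟨n + 1, smul_mem_ball hs hn⟩
  let Good : ℕ → Y → Prop := fun n y => {z | ReflTransGen (Step S (ball S y₀ n)) y z}.Infinite
  have good0 : ∀ y, Good 0 y := by
    intro y
    have : {z | ReflTransGen (Step S (ball S y₀ 0)) y z} = Set.univ :=
      Set.eq_univ_of_forall fun z => hall y z
    simp only [Good, this]
    exact Set.infinite_univ
  have notgood : ∀ n y, y ∈ ball S y₀ n → ¬ Good n y := by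
    intro n y hy hg
    apply hg
    apply (Set.finite_singleton y).subset
    intro z hz
    rcases ReflTransGen.cases_head hz with h | ⟨c, hc, -⟩
    · exact h.symm
    · exact absurd hy hc.1
  have bad_fin : ∀ n, {y | ¬ Good (n + 1) y}.Finite := by
    intro n
    have hA : y₀ ∈ ball S y₀ (n + 1) := Or.inl rfl
    have key : ∀ y : Y, y ∈ ball S y₀ (n + 1) ∨
        ∃ z ∈ ball S y₀ (n + 2), ReflTransGen (Step S (ball S y₀ (n + 1))) z y := by
      intro y
      induction hall y₀ y with
      | refl => exact Or.inl hA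
      | @tail b c _ h2 ih =>
        obtain ⟨-, -, s, hs, rfl⟩ := h2
        by_cases hc : s • b ∈ ball S y₀ (n + 1)
        · exact Or.inl hc
        right
        by_cases hb : b ∈ ball S y₀ (n + 1)
        · exact ⟨s • b, smul_mem_ball hs hb, ReflTransGen.refl⟩
        · obtain ⟨z, hz, hr⟩ := ih.resolve_left hb
          exact ⟨z, hz, hr.tail ⟨hb, hc, s, hs, rfl⟩⟩
    have hfin : (⋃ z ∈ {z ∈ ball S y₀ (n + 2) | ¬ Good (n + 1) z},
        {y | ReflTransGen (Step S (ball S y₀ (n + 1))) z y}).Finite :=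
      ((ball_finite S y₀ (n + 2)).subset (Set.sep_subset _ _)).biUnion
        fun z hz => Set.not_infinite.mp hz.2
    refine ((ball_finite S y₀ (n + 1)).union hfin).subset fun y hy => ?_
    rcases key y with h | ⟨z, hz, hr⟩
    · exact Or.inl h
    · refine Or.inr (Set.mem_biUnion (x := z) ⟨hz, fun hg => hy ?_⟩ hr)
      exact hg.mono fun v hv => (reach_symm hS hr).trans hv
  have hex : ∀ y, ∃ n, ¬ Good (n + 1) y := by
    intro y
    obtain ⟨n, hn⟩ := hcov y
    exact ⟨n, notgood _ _ (ball_succ S y₀ n hn)⟩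
  let r : Y → ℕ := fun y => Nat.find (hex y)
  have r_bad : ∀ y, ¬ Good (r y + 1) y := fun y => Nat.find_spec (hex y)
  have r_good : ∀ y, Good (r y) y := by
    intro y
    rcases h : r y with _ | k
    · exact good0 y
    · exact not_not.mp (Nat.find_min (hex y) (show k < r y by omega))
  have good_mono : ∀ n y, Good (n + 1) y → Good n y := by
    intro n y h
    refine h.mono fun z hz => ?_
    have hz' : ReflTransGen (Step S (ball S y₀ (n + 1))) y z := hz
    change ReflTransGen (Step S (ball S y₀ n)) y z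
    clear hz h
    induction hz' with
    | refl => exact ReflTransGen.refl
    | tail _ hab ih =>
      exact ih.tail
        ⟨fun h => hab.1 (ball_succ S y₀ n h), fun h => hab.2.1 (ball_succ S y₀ n h), hab.2.2⟩
  have good_le : ∀ k n y, Good (n + k) y → Good n y := by
    intro k
    induction k with
    | zero => exact fun _ _ h => h
    | succ k ih => exact fun n y h => ih n y (good_mono _ _ h)
  have r_ge : ∀ n y, Good n y → n ≤ r y := by
    intro n y h
    by_contra hlt
    apply r_bad y
    obtain ⟨k, rfl⟩ : ∃ k, n = r y + 1 + k := ⟨n - (r y + 1), by omega⟩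
    exact good_le k _ _ h
  let Pk : ℕ → ℕ → Y → Prop := fun n k =>
    Nat.rec (fun y => Good (n + 1) y) (fun _ p y => ∃ b, Step S (ball S y₀ n) y b ∧ p b) k
  have hP : ∀ y, ∃ k, Pk (r y) k y := by
    intro y
    obtain ⟨z, hz, hg⟩ : ∃ z, ReflTransGen (Step S (ball S y₀ (r y))) y z ∧ Good (r y + 1) z := by
      by_contra hno
      push Not at hno
      exact r_good y ((bad_fin (r y)).subset fun z hz => hno z hz)
    generalize r y = n at hz hg
    induction hz using ReflTransGen.head_induction_on with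
    | refl => exact ⟨0, hg⟩
    | head h1 _ ih =>
      obtain ⟨k, hk⟩ := ih
      exact ⟨k + 1, _, h1, hk⟩
  let m : Y → ℕ := fun y => @Nat.find _ (Classical.decPred _) (hP y)
  have hstep : ∀ y, ∃ s ∈ S, r y < r (s • y) ∨ (r y = r (s • y) ∧ m (s • y) < m y) := by
    intro y
    have h1 : Pk (r y) (m y) y := @Nat.find_spec _ (Classical.decPred _) (hP y)
    rcases h : m y with _ | k
    · rw [h] at h1
      exact absurd h1 (r_bad y)
    · rw [h] at h1
      obtain ⟨b, hb, hk⟩ := h1
      obtain ⟨s, hs, rfl⟩ := hb.2.2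
      refine ⟨s, hs, ?_⟩
      have hg : Good (r y) (s • y) :=
        (r_good y).mono fun v hv => ReflTransGen.head (hb.symm' hS) hv
      rcases (r_ge _ _ hg).lt_or_eq with hlt | heq
      · exact Or.inl hlt
      · refine Or.inr ⟨heq, ?_⟩
        have : m (s • y) ≤ k := @Nat.find_min' _ (Classical.decPred _) (hP _) _ (heq ▸ hk)
        omega
  choose σ hσ hσ' using hstep
  have hN : ∀ n, ∃ N, ∀ y, ¬ Good (n + 1) y → m y ≤ N := by
    intro n
    obtain ⟨N, hN⟩ := ((bad_fin n).image m).bddAbove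
    exact ⟨N, fun y hy => hN ⟨y, hy, rfl⟩⟩
  choose N hN using hN
  refine ⟨σ, hσ, ?_⟩
  refine Subrelation.wf (r := InvImage (Prod.Lex (· < ·) (· < ·))
    (fun y : Y => (r y, N (r y) - m y))) ?_
    (InvImage.wf _ (WellFounded.prod_lex wellFounded_lt wellFounded_lt))
  rintro y' y rfl
  rcases hσ' y' with h | ⟨h1, h2⟩
  · exact Prod.Lex.left _ _ h
  · change Prod.Lex _ _ (r y', N (r y') - m y') (r (σ y' • y'), N (r (σ y' • y')) - m (σ y' • y'))
    rw [← h1]
    have := hN (r y') y' (r_bad y')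
    exact Prod.Lex.right _ (by omega)

end Pool.Agent.Lib.MP_d98eb9_al
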