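import Mathlib
import Pool.Agent.Lib.MP_d98eb9_al.Succ
import Pool.Agent.Lib.MP_d98eb9_al.Dual

/-! Finite generation, one-endedness, almost invariant functions and Strebel's splitting. -/

namespace Pool.Agent.Lib.MP_d98eb9_al

open MonoidAlgebra

variable {G : Type} [Group G]

/-- The augmentation. -/
noncomputable def aug (G : Type) [Group G] : ZG G →+* ℤ :=
  (MonoidAlgebra.lift ℤ ℤ G 1).toRingHom

@[simp] theorem aug_single (g : G) (n : ℤ) : aug G (single g n) = n := by simp [aug]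

section lsum

variable {M : Type} [AddCommGroup M]

theorem lsum_const (m : M) (r : ZG G) : lsum (fun _ : G => m) r = aug G r • m :=
  hom_ext (f := lsum fun _ : G => m) (f' := (zmultiplesHom M m).comp (aug G).toAddMonoidHom)
    (fun g => by simp) r

theorem lsum_mul_left (u : G → M) (g : G) (r : ZG G) :
    lsum u (single g 1 * r) = lsum (fun k => u (g * k)) r :=
  hom_ext (f := (lsum u).comp (AddMonoidHom.mulLeft _)) (f' := lsum fun k => u (g * k))
    (fun k => by simp [single_mul_single]) r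

theorem lsum_eq (u : G → M) (r : ZG G) : lsum u r = ∑ g ∈ r.coeff.support, r.coeff g • u g := by
  conv_lhs => rw [← sum_coeff_single r, Finsupp.sum, map_sum]
  simp

theorem lsum_congr {u u' : G → M} {r : ZG G} (h : ∀ g ∈ r.coeff.support, u g = u' g) :
    lsum u r = lsum u' r := by
  rw [lsum_eq, lsum_eq]
  exact Finset.sum_congr rfl fun g hg => by rw [h g hg]

theorem lsum_sum_sub {J : Type} (T : Finset J) (u u' : J → G → M) (r : ZG G) :
    lsum (fun g => ∑ j ∈ T, (u j g - u' j g)) r = ∑ j ∈ T, (lsum (u j) r - lsum (u' j) r) := by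
  simp only [lsum_eq, Finset.smul_sum, smul_sub, ← Finset.sum_sub_distrib]
  exact Finset.sum_comm

end lsum

section low

variable {P0 P1 P2 : Type} [AddCommGroup P0] [AddCommGroup P1] [AddCommGroup P2]
  [Module (ZG G) P0] [Module (ZG G) P1] [Module (ZG G) P2]
  {d0 : P1 →ₗ[ZG G] P0} {d1 : P2 →ₗ[ZG G] P1} {ε : P0 →+ ℤ}

theorem eps_smul (hε : ∀ (g : G) (x : P0), ε ((single g 1 : ZG G) • x) = ε x) (r : ZG G) (x : P0) :
    ε (r • x) = aug G r * ε x := by
  induction r using ind1 with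
  | h0 => simp
  | hadd a b ha hb => simp only [add_smul, map_add, ha, hb, add_mul]
  | hneg a ha => simp only [neg_smul, map_neg, ha, neg_mul]
  | hs g => simp [hε]

theorem exists_beta (hε : ∀ (g : G) (x : P0), ε ((single g 1 : ZG G) • x) = ε x) (B0 : DB G P0) :
    ∃ β : P0 →ₗ[ZG G] ZG G, ∀ x, aug G (β x) = ε x := by
  refine ⟨∑ l, ε (B0.x l) • B0.f l, fun x => ?_⟩
  conv_rhs => rw [← B0.sum_eq x, map_sum]
  rw [LinearMap.sum_apply, map_sum]
  refine Finset.sum_congr rfl fun l _ => ?_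
  rw [eps_smul hε, LinearMap.smul_apply, map_zsmul, smul_eq_mul, mul_comm]

theorem exists_d0 (hε : ∀ (g : G) (x : P0), ε ((single g 1 : ZG G) • x) = ε x)
    (ex0 : Function.Exact d0 ε) (g : G) (x : P0) : ∃ y, d0 y = (single g 1 : ZG G) • x - x :=
  (ex0 _).mp (by rw [map_sub, hε, sub_self])

theorem exists_gen (hε : ∀ (g : G) (x : P0), ε ((single g 1 : ZG G) • x) = ε x)
    (hs : Function.Surjective ε) (ex0 : Function.Exact d0 ε) (B0 : DB G P0) (B1 : DB G P1) :
    ∃ S : Finset G, (∀ s ∈ S, s⁻¹ ∈ S) ∧ Subgroup.closure (S : Set G) = ⊤ := by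
  classical
  obtain ⟨β, hβ⟩ := exists_beta hε B0
  obtain ⟨x0, hx0⟩ := hs 1
  let S0 : Finset G := (1 - β x0).coeff.support ∪
    Finset.univ.biUnion fun i => (β (d0 (B1.x i))).coeff.support
  let H := Subgroup.closure (S0 : Set G)
  let lam : ZG G →+ ℤ := lsum fun g => if g ∈ H then 1 else 0
  have key : ∀ t : ZG G, t.coeff.support ⊆ S0 → aug G t = 0 → ∀ r, lam (r * t) = 0 := by
    intro t ht ha r
    refine hom_ext (f := lam.comp (AddMonoidHom.mulRight t)) (f' := 0) (fun g => ?_) r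
    change lam (single g 1 * t) = 0
    rw [lsum_mul_left, lsum_congr (u' := fun _ => if g ∈ H then 1 else 0), lsum_const, ha,
      zero_smul]
    intro k hk
    have hk' : k ∈ H := Subgroup.subset_closure (ht hk)
    simp only [H.mul_mem_cancel_right hk']
  have hH : ∀ g, g ∈ H := by
    intro g
    obtain ⟨y, hy⟩ := exists_d0 hε ex0 g x0
    have e : (single g 1 - single 1 1 : ZG G) = (single g 1 - 1) * (1 - β x0) +
        ∑ i, B1.f i y * β (d0 (B1.x i)) := by
      have : ∑ i, B1.f i y * β (d0 (B1.x i)) = β (d0 y) := by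
        conv_rhs => rw [← B1.sum_eq y, map_sum, map_sum]
        simp
      rw [this, hy, map_sub, map_smul, smul_eq_mul, ← one_def]
      noncomm_ring
    have h2 := congrArg lam e
    rw [map_add, map_sum, key _ Finset.subset_union_left (by simp [hβ, hx0]),
      Finset.sum_eq_zero, map_sub] at h2
    · by_contra hg
      simp [lam, hg, H.one_mem] at h2
    · intro i _
      refine key _ (fun k hk => Finset.mem_union_right _
        (Finset.mem_biUnion.mpr ⟨i, Finset.mem_univ _, hk⟩)) ?_ _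
      rw [hβ]
      exact ex0.apply_apply_eq_zero _
  refine ⟨S0 ∪ S0.image (·⁻¹), fun s hs => ?_, ?_⟩
  · rcases Finset.mem_union.mp hs with h | h
    · exact Finset.mem_union_right _ (Finset.mem_image_of_mem _ h)
    · obtain ⟨t, ht, rfl⟩ := Finset.mem_image.mp h
      exact Finset.mem_union_left _ (by simpa using ht)
  · rw [eq_top_iff]
    intro g _
    exact Subgroup.closure_mono (by simp) (hH g)

theorem one_ended (hε : ∀ (g : G) (x : P0), ε ((single g 1 : ZG G) • x) = ε x)
    (hs : Function.Surjective ε) (ex0 : Function.Exact d0 ε) (ex1 : Function.Exact d1 d0)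
    (B0 : DB G P0)
    (H1 : ∀ φ : P1 →ₗ[ZG G] ZG G, φ ∘ₗ d1 = 0 → ∃ θ : P0 →ₗ[ZG G] ZG G, θ ∘ₗ d0 = φ)
    (U : Set G) (hU : ∀ k, {g | ¬ (k * g ∈ U ↔ g ∈ U)}.Finite) : U.Finite ∨ Uᶜ.Finite := by
  classical
  obtain ⟨β, hβ⟩ := exists_beta hε B0
  obtain ⟨x0, hx0⟩ := hs 1
  let h : G → ℤ := fun g => if g ∈ U then 1 else 0
  let Λ : G → ZG G →+ ℤ := fun g => lsum fun k => h (k⁻¹ * g)
  have hfin : ∀ r : ZG G, aug G r = 0 → (Function.support fun g => Λ g r).Finite := by
    intro r hr
    refine (r.coeff.support.finite_toSet.biUnion fun k _ => hU k⁻¹).subset fun g hg => ?_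
    by_contra hno
    apply hg
    change lsum _ r = 0
    rw [lsum_congr (u' := fun _ => h g), lsum_const, hr, zero_smul]
    intro k hk
    have : k⁻¹ * g ∈ U ↔ g ∈ U := by
      by_contra hc
      exact hno (Set.mem_biUnion (Finset.mem_coe.mpr hk) hc)
    simp only [h, this]
  have hΛ : ∀ k g r, Λ g (single k 1 * r) = Λ (k⁻¹ * g) r := by
    intro k g r
    simp only [Λ, lsum_mul_left, mul_inv_rev, mul_assoc]
  have ha : ∀ y, aug G (β (d0 y)) = 0 := fun y => by rw [hβ]; exact ex0.apply_apply_eq_zero _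
  let φ0 : P1 →+ ZG G := AddMonoidHom.mk'
    (fun y => ofCoeff (Finsupp.ofSupportFinite _ (hfin _ (ha y)))) fun y y' => by
      ext g
      simp [Finsupp.ofSupportFinite_coe]
  have hφ0 : ∀ y g, (φ0 y).coeff g = Λ g (β (d0 y)) := fun y g => by
    simp [φ0, Finsupp.ofSupportFinite_coe]
  let φ : P1 →ₗ[ZG G] ZG G := mkLin φ0 fun k y => by
    ext g
    rw [hφ0, smul_eq_mul, coeff_single_mul_apply, hφ0, map_smul, map_smul, smul_eq_mul, hΛ, one_mul]
  obtain ⟨θ, hθ⟩ := H1 φ (by
    ext z g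
    simp [φ, hφ0, ex1.apply_apply_eq_zero])
  let e : G → ℤ := fun g => Λ g (β x0) - (θ x0).coeff g
  have he : ∀ k g, e (k⁻¹ * g) = e g := by
    intro k g
    obtain ⟨y, hy⟩ := exists_d0 hε ex0 k x0
    have h1 : (θ (d0 y)).coeff g = Λ g (β (d0 y)) := by
      rw [← hφ0]
      exact congrArg (fun r : ZG G => r.coeff g) (LinearMap.congr_fun hθ y)
    rw [hy, map_sub, map_sub, map_sub, map_smul, map_smul, smul_eq_mul, smul_eq_mul, hΛ, coeff_sub,
      Finsupp.sub_apply, coeff_single_mul_apply, one_mul] at h1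
    simp only [e]
    linarith
  have he' : ∀ g, e g = e 1 := fun g => by rw [← he g g, inv_mul_cancel]
  have hf2 : {g | h g ≠ e 1}.Finite := by
    refine ((hfin (β x0 - 1) (by simp [hβ, hx0])).union
      (θ x0).coeff.support.finite_toSet).subset fun g hg => ?_
    by_contra hno
    apply hg
    simp only [Set.mem_union, Function.mem_support, Finset.mem_coe, Finsupp.mem_support_iff,
      not_or, not_not] at hno
    have h3 : Λ g 1 = h g := by simp [Λ, one_def]
    rw [← he' g]
    simp only [e]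
    rw [map_sub, h3] at hno
    linarith [hno.1, hno.2]
  by_cases h0 : e 1 = 0
  · left
    refine hf2.subset fun g hg => ?_
    simp [h, hg, h0]
  · right
    refine hf2.subset fun g hg => ?_
    have hg' : g ∉ U := hg
    simp [h, hg', Ne.symm h0]

end low

theorem level {C : Subgroup G} {D : Type} [MulZeroClass D] [Infinite G] [Nontrivial C]
    (S : Finset G) (hS : ∀ s ∈ S, s⁻¹ ∈ S) (hgen : Subgroup.closure (S : Set G) = ⊤)
    (hone : ∀ U : Set G, (∀ k, {g | ¬ (k * g ∈ U ↔ g ∈ U)}.Finite) → U.Finite ∨ Uᶜ.Finite)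
    (f : G → D) (κ : C → D) (hf : ∀ (g : G) (c : C), f (g * c) = f g * κ c)
    (hκ : ∀ a : D, a ≠ 0 → ∀ c, a * κ c = a → c = 1)
    (hai : ∀ k, ((fun g : G => (g : G ⧸ C)) '' {g | f (k * g) ≠ f g}).Finite) :
    ((fun g : G => (g : G ⧸ C)) '' {g | f g ≠ 0}).Finite := by
  have inj : ∀ a : D, a ≠ 0 → ∀ k, Set.InjOn (fun g : G => (g : G ⧸ C)) {g | f (k * g) = a} := by
    intro a ha k g hg g' hg' hgg
    have hc : g⁻¹ * g' ∈ C := QuotientGroup.eq.mp hgg
    have h1 := hf (k * g) ⟨_, hc⟩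
    have hg1 : f (k * g) = a := hg
    have hg2 : f (k * g') = a := hg'
    rw [show k * g * ((⟨_, hc⟩ : C) : G) = k * g' by simp [mul_assoc], hg1, hg2] at h1
    have h2 := congrArg Subtype.val (hκ a ha _ h1.symm)
    exact inv_mul_eq_one.mp h2
  have ufin : ∀ a : D, a ≠ 0 → {g | f g = a}.Finite := by
    intro a ha
    have := hone {g | f g = a} fun k => by
      refine Set.Finite.subset (Set.Finite.union
        (s := {g | f (1 * g) = a} ∩ {g | f (k * g) ≠ f g})
        (t := {g | f (k * g) = a} ∩ {g | f (k * g) ≠ f g})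
        (Set.Finite.of_finite_image ((hai k).subset (Set.image_mono Set.inter_subset_right))
          ((inj a ha 1).mono Set.inter_subset_left))
        (Set.Finite.of_finite_image ((hai k).subset (Set.image_mono Set.inter_subset_right))
          ((inj a ha k).mono Set.inter_subset_left))) fun g hg => ?_
      simp only [Set.mem_ofPred_eq, Set.mem_union, Set.mem_inter_iff, one_mul] at hg ⊢
      by_cases h1 : f g = a
      · exact Or.inl ⟨h1, fun h => hg (by simp [h])⟩
      · exact Or.inr ⟨by tauto, fun h => hg (by simp [h])⟩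
    rcases this with h | h
    · exact h
    · obtain ⟨c, hc⟩ := exists_ne (1 : C)
      refine Set.Finite.of_finite_image (f := fun g => g * (c : G)) (h.subset ?_)
        (mul_left_injective _).injOn
      rintro _ ⟨g, hg, rfl⟩ h2
      have hg1 : f g = a := hg
      have h3 : f (g * c) = a := h2
      rw [hf, hg1] at h3
      exact hc (hκ a ha c h3)
  have hY : (⋃ s ∈ S, (fun g : G => (g : G ⧸ C)) '' {g | f (s * g) ≠ f g}).Finite :=
    S.finite_toSet.biUnion fun s _ => hai s
  refine ((hY.subset (Set.sep_subset _ fun y => f y.out ≠ 0)).biUnion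
    (t := fun y => (fun g : G => (g : G ⧸ C)) '' {g | f g = f y.out})
    fun y hy => (ufin _ hy.2).image _).subset ?_
  rintro _ ⟨g, hg, rfl⟩
  have hg0 : f g ≠ 0 := hg
  obtain ⟨g', hg', s, hs, hne⟩ : ∃ g', f g' = f g ∧ ∃ s ∈ S, f (s * g') ≠ f g' := by
    by_contra hno
    push Not at hno
    have hall : ∀ k, f (k * g) = f g := by
      intro k
      have hr := reach_all (Y := G) hS hgen k g
      rw [smul_eq_mul] at hr
      generalize k * g = z at hr
      induction hr with
      | refl => rfl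
      | tail _ h2 ih =>
        obtain ⟨-, -, s, hs, rfl⟩ := h2
        rw [smul_eq_mul, hno _ ih s hs, ih]
    refine Set.infinite_univ ((ufin _ hg0).subset fun z _ => ?_)
    simpa using hall (z * g⁻¹)
  let c : C := ⟨_, out_inv_mul_mem (C := C) g'⟩
  have hc : (g' : G ⧸ C).out * (c : G) = g' := by simp [c]
  have hc' : g' * ((c⁻¹ : C) : G) = (g' : G ⧸ C).out := by simp [c]
  refine Set.mem_biUnion (x := (g' : G ⧸ C)) ⟨Set.mem_biUnion hs ⟨g', hne, rfl⟩, fun h0 => ?_⟩
    ⟨g * ((c⁻¹ : C) : G), ?_, ?_⟩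
  · apply hg0
    rw [← hg', ← hc, hf, h0, zero_mul]
  · change f _ = f _
    rw [← hc', hf, hf, hg']
  · exact QuotientGroup.mk_mul_of_mem g (c⁻¹).2

section flow

variable {w : G →* ℤ} {C : Subgroup G} {M : Type} [AddCommGroup M] [Module (ZG C) M]

/-- Twisted equivariance of a function on `G`. -/
def Eqv (w : G →* ℤ) (C : Subgroup G) [Module (ZG C) M] (u : G → M) : Prop :=
  ∀ (g : G) (c : C), w c • u (g * (c : G)⁻¹) = (single c 1 : ZG C) • u g

theorem flow [Infinite (G ⧸ C)] (S : Finset G) (hS : ∀ s ∈ S, s⁻¹ ∈ S)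
    (hgen : Subgroup.closure (S : Set G) = ⊤) (u : G → M) (hu : Eqv w C u) :
    ∃ h : G → G → M, (∀ s, Eqv w C (h s)) ∧ ∀ g, u g = ∑ s ∈ S, (h s (s * g) - h s g) := by
  classical
  obtain ⟨σ, hσ, wf⟩ := exists_succ (Y := G ⧸ C) S hS hgen
  have wf' : WellFounded (fun g' g : G => σ (g' : G ⧸ C) * g' = g) :=
    Subrelation.wf (r := InvImage (fun y' y : G ⧸ C => σ y' • y' = y) (fun g : G => (g : G ⧸ C)))
      (by rintro g' g rfl; rfl) (InvImage.wf _ wf)
  let H : G → M := wf'.fix fun g rec => u g + ∑ s ∈ S,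
    if hs : σ ((s⁻¹ * g : G) : G ⧸ C) = s then rec (s⁻¹ * g) (by rw [hs]; simp) else 0
  have hH : ∀ g, H g = u g + ∑ s ∈ S,
      if σ ((s⁻¹ * g : G) : G ⧸ C) = s then H (s⁻¹ * g) else 0 := by
    intro g
    simp only [H]
    rw [wf'.fix_eq]
    simp only [dite_eq_ite]
  have hq : ∀ (g : G) (c : C), ((g * (c : G)⁻¹ : G) : G ⧸ C) = g := fun g c =>
    QuotientGroup.mk_mul_of_mem g (C.inv_mem c.2)
  have hE : Eqv w C H := by
    intro g
    induction g using wf'.induction with
    | _ g ih =>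
      intro c
      rw [hH (g * _), hH g, smul_add, smul_add, hu, Finset.smul_sum, Finset.smul_sum]
      congr 1
      refine Finset.sum_congr rfl fun s _ => ?_
      rw [← mul_assoc, hq]
      split_ifs with hs
      · exact ih _ (by rw [hs]; simp) c
      · simp
  refine ⟨fun s g => if σ ((s⁻¹ * g : G) : G ⧸ C) = s then H (s⁻¹ * g) else 0, fun s g c => ?_,
    fun g => ?_⟩
  · simp only
    rw [← mul_assoc, hq]
    split_ifs with hs
    · exact hE _ c
    · simp
  · simp only [inv_mul_cancel_left, Finset.sum_sub_distrib]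
    rw [Finset.sum_ite_eq, if_pos (hσ _), eq_sub_iff_add_eq]
    exact (hH g).symm

variable {P0 P1 : Type} [AddCommGroup P0] [AddCommGroup P1]
  [Module (ZG G) P0] [Module (ZG G) P1] {d0 : P1 →ₗ[ZG G] P0} {ε : P0 →+ ℤ}

/-- The linear map `q ↦ u (q x)`. -/
noncomputable def br (x : P1) (u : G → M) (hu : Eqv w C u) : Du w C P1 →ₗ[ZG C] M :=
  mkLin ((lsum u).comp (Du.evAt w C x)) fun c q => by
    change lsum u (((single c 1 : ZG C) • q).ev x) = _ • lsum u (q.ev x)
    rw [Du.ev_single_smul]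
    refine hom_ext (f := (lsum u).comp (AddMonoidHom.mulRight _))
      (f' := (DistribSMul.toAddMonoidHom M (single c 1 : ZG C)).comp (lsum u)) (fun g => ?_) _
    change lsum u (single g 1 * single (c : G)⁻¹ (w c)) = (single c 1 : ZG C) • lsum u (single g 1)
    rw [single_mul_single, lsum_single, lsum_single, one_mul, one_smul, hu]

theorem br_apply (x : P1) (u : G → M) (hu : Eqv w C u) (q : Du w C P1) :
    br x u hu q = lsum u (q.ev x) := rfl

theorem exists_retraction [Infinite (G ⧸ C)]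
    (hε : ∀ (g : G) (x : P0), ε ((single g 1 : ZG G) • x) = ε x)
    (hs : Function.Surjective ε) (ex0 : Function.Exact d0 ε) (B0 : DB G P0) (B1 : DB G P1) :
    ∃ r : Du w C P1 →ₗ[ZG C] Du w C P0, ∀ q, r (Du.map w C d0 q) = q := by
  obtain ⟨S, hS, hgen⟩ := exists_gen hε hs ex0 B0 B1
  obtain ⟨x0, hx0⟩ := hs 1
  have A : ∀ (x : P0) (u : G → Du w C P0), Eqv w C u → ∃ σ : Du w C P1 →ₗ[ZG C] Du w C P0,
      ∀ q, σ (Du.map w C d0 q) = lsum u (q.ev x) := by
    intro x u hu
    obtain ⟨h, hh, hsum⟩ := flow S hS hgen u hu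
    choose y hy using fun s : G => exists_d0 hε ex0 s x0
    obtain ⟨z, hz⟩ : ∃ z, d0 z = x - ε x • x0 := (ex0 _).mp (by simp [hx0])
    refine ⟨br z u hu + ε x • ∑ s ∈ S, br (y s) (h s) (hh s), fun q => ?_⟩
    have e : lsum u (q.ev x0) = ∑ s ∈ S, br (y s) (h s) (hh s) (Du.map w C d0 q) := by
      rw [show u = _ from funext hsum, lsum_sum_sub]
      refine Finset.sum_congr rfl fun s _ => ?_
      rw [br_apply, Du.map_ev, hy, map_sub, map_sub, map_smul, smul_eq_mul, lsum_mul_left]
    rw [LinearMap.add_apply, LinearMap.smul_apply, LinearMap.sum_apply, ← e, br_apply, Du.map_ev,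
      hz, map_sub, map_sub, map_zsmul, map_zsmul, sub_add_cancel]
  choose σ hσ using fun l => A (B0.x l) (fun g => rm w C (B0.f l) (single g 1)) fun g c => by
    rw [← rm_mul, ← map_zsmul, single_mul_single]
    simp
  refine ⟨∑ l, σ l, fun q => ?_⟩
  rw [LinearMap.sum_apply]
  conv_rhs => rw [B0.dual_eq q]
  refine Finset.sum_congr rfl fun l _ => ?_
  rw [hσ]
  exact hom_ext (fun g => by simp) _

end flow

end Pool.Agent.Lib.MP_d98eb9_al
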