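import Mathlib
import Pool.Agent.Lib.MP_d98eb9_al.Ends

/-! The relation module of a finitely generated subgroup of infinite index is projective, and it is
finitely generated when the group ring of the subgroup embeds in a division ring. -/

namespace Pool.Agent.Lib.MP_d98eb9_al

open MonoidAlgebra

/-- A projective module whose functionals have bounded rank in a division ring is finite. -/
theorem finite_of_rank {S D K : Type} [Ring S] [DivisionRing D] [AddCommGroup K] [Module S K]
    [Module.Projective S K] (ι : S →+* D) (hι : Function.Injective ι) (N : ℕ)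
    (h : ∀ p : Fin (N + 1) → K, ∃ a : Fin (N + 1) → D, a ≠ 0 ∧
      ∀ lam : K →ₗ[S] S, ∑ j, a j * ι (lam (p j)) = 0) : Module.Finite S K := by
  classical
  let e : K → ((K →ₗ[S] S) → D) := fun p lam => ι (lam p)
  obtain ⟨b, hb, hspan, hli⟩ := exists_linearIndependent D (Set.range e)
  have hfin : b.Finite := by
    by_contra hinf
    let v := Set.Infinite.natEmbedding b hinf
    have hv : LinearIndependent D fun j : Fin (N + 1) => ((v j : b) : (K →ₗ[S] S) → D) :=
      hli.comp (fun j : Fin (N + 1) => v j) (v.injective.comp Fin.val_injective)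
    choose p hp using fun j : Fin (N + 1) => hb (v j).2
    obtain ⟨a, ha, hrel⟩ := h p
    apply ha
    funext j
    refine Fintype.linearIndependent_iff.mp hv a ?_ j
    funext lam
    rw [Finset.sum_apply, Pi.zero_apply, ← hrel lam]
    refine Finset.sum_congr rfl fun j _ => ?_
    rw [← hp j]
    rfl
  choose! p hp using fun v (hv : v ∈ b) => hb hv
  obtain ⟨s, hs⟩ := Module.projective_def'.mp (inferInstance : Module.Projective S K)
  let T : Finset K := hfin.toFinset.biUnion fun v => (s (p v)).support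
  refine ⟨⟨T, eq_top_iff.mpr fun x _ => ?_⟩⟩
  have hsupp : (s x).support ⊆ T := by
    intro a ha
    by_contra hno
    let lam : K →ₗ[S] S := Finsupp.lapply a ∘ₗ s
    have h0 : ∀ v ∈ Submodule.span D b, v lam = 0 := by
      intro v hv
      induction hv using Submodule.span_induction with
      | mem v hv =>
        rw [← hp v hv]
        have : s (p v) a = 0 := by
          by_contra hne
          exact hno (Finset.mem_biUnion.mpr ⟨v, by simpa using hv, by simpa using hne⟩)
        simp [e, lam, this]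
      | zero => rfl
      | add u v _ _ hu hv => simp [hu, hv]
      | smul c v _ hv => simp [hv]
    have h1 := h0 (e x) (hspan ▸ Submodule.subset_span ⟨x, rfl⟩)
    have h2 : lam x = 0 := hι (by simpa [e] using h1)
    exact (Finsupp.mem_support_iff.mp ha) h2
  have hx : Finsupp.linearCombination S id (s x) = x := LinearMap.congr_fun hs x
  rw [← hx, Finsupp.linearCombination_apply, Finsupp.sum]
  exact Submodule.sum_mem _ fun a ha =>
    Submodule.smul_mem _ _ (Submodule.subset_span (hsupp ha))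

section bd

variable {C : Type} [Group C] {n : ℕ}

/-- The first boundary map of the Cayley resolution. -/
noncomputable def bd (c : Fin n → C) : (Fin n →₀ ZG C) →ₗ[ZG C] ZG C :=
  Finsupp.linearCombination (ZG C) fun k => single (c k) 1 - 1

theorem bd_single (c : Fin n → C) (k : Fin n) : bd c (Finsupp.single k 1) = single (c k) 1 - 1 := by
  simp [bd]

theorem exact_bd (c : Fin n → C) (hc : Subgroup.closure (Set.range c) = ⊤) :
    Function.Exact (bd c) (aug C) := by
  intro r
  constructor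
  · intro hr
    have h1 : ∀ g : C, (single g 1 - 1 : ZG C) ∈ LinearMap.range (bd c) := by
      intro g
      have hg : g ∈ Subgroup.closure (Set.range c) := hc ▸ Subgroup.mem_top g
      induction hg using Subgroup.closure_induction with
      | mem g hg =>
        obtain ⟨k, rfl⟩ := hg
        exact ⟨_, bd_single c k⟩
      | one => simp [one_def]
      | mul a b _ _ ha hb =>
        have : (single (a * b) 1 - 1 : ZG C) =
            (single a 1 : ZG C) • (single b 1 - 1) + (single a 1 - 1) := by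
          rw [smul_eq_mul, mul_sub, single_mul_single]
          simp
        rw [this]
        exact add_mem (Submodule.smul_mem _ _ hb) ha
      | inv a _ ha =>
        have : (single a⁻¹ 1 - 1 : ZG C) = -((single a⁻¹ 1 : ZG C) • (single a 1 - 1)) := by
          rw [smul_eq_mul, mul_sub, single_mul_single]
          simp [one_def]
        rw [this]
        exact neg_mem (Submodule.smul_mem _ _ ha)
    have h2 : ∀ r : ZG C, r - aug C r • 1 ∈ LinearMap.range (bd c) := by
      intro r
      induction r using ind1 with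
      | h0 => simp
      | hadd a b ha hb =>
        rw [map_add, add_smul, add_sub_add_comm]
        exact add_mem ha hb
      | hneg a ha =>
        rw [map_neg, neg_smul, ← neg_sub']
        exact neg_mem ha
      | hs g => simpa using h1 g
    simpa [hr] using h2 r
  · rintro ⟨v, rfl⟩
    induction v using Finsupp.induction_linear with
    | zero => simp
    | add a b ha hb => simp [ha, hb]
    | single k r => simp [bd]

theorem exists_beta' {Q : Type} [AddCommGroup Q] [Module (ZG C) Q] [Module.Projective (ZG C) Q]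
    {η : Q →+ ℤ} (hη : ∀ (g : C) (x : Q), η ((single g 1 : ZG C) • x) = η x) :
    ∃ β : Q →ₗ[ZG C] ZG C, ∀ x, aug C (β x) = η x := by
  obtain ⟨s, hs⟩ := Module.projective_def'.mp (inferInstance : Module.Projective (ZG C) Q)
  refine ⟨Finsupp.linearCombination (ZG C) (fun t => η t • (1 : ZG C)) ∘ₗ s, fun x => ?_⟩
  conv_rhs => rw [← show Finsupp.linearCombination (ZG C) id (s x) = x from LinearMap.congr_fun hs x]
  rw [LinearMap.comp_apply]
  induction s x using Finsupp.induction_linear with
  | zero => simp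
  | add a b ha hb => simp only [map_add, ha, hb]
  | single t r => simp [eps_smul hη]

end bd

variable {G : Type} [Group G] {w : G →* ℤ} {C : Subgroup G}
  {P0 P1 P2 : Type} [AddCommGroup P0] [AddCommGroup P1] [AddCommGroup P2]
  [Module (ZG G) P0] [Module (ZG G) P1] [Module (ZG G) P2]
  {d0 : P1 →ₗ[ZG G] P0} {d1 : P2 →ₗ[ZG G] P1} {ε : P0 →+ ℤ}

theorem pr_finite (r : ZG G) :
    ((fun g : G => (g : G ⧸ C)) '' {g | pr w C (single g⁻¹ 1 * r) ≠ 0}).Finite := by
  refine (r.coeff.support.finite_toSet.image fun g : G => (g : G ⧸ C)).subset ?_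
  rintro _ ⟨g, hg, rfl⟩
  by_contra hno
  apply hg
  rw [pr, lsum_mul_left, lsum_congr (u' := fun _ => 0), lsum_const, smul_zero]
  intro k hk
  exact dif_neg fun h => hno ⟨k, hk, (QuotientGroup.eq.mpr h).symm⟩

/-- A compactly supported cocycle that is a coboundary is the coboundary of a compactly supported
cochain. -/
theorem vanish {D : Type} [DivisionRing D] (ι : ZG C →+* D) (hι : Function.Injective ι)
    [Infinite G] [Nontrivial C]
    (hε : ∀ (g : G) (x : P0), ε ((single g 1 : ZG G) • x) = ε x)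
    (hs : Function.Surjective ε) (ex0 : Function.Exact d0 ε) (ex1 : Function.Exact d1 d0)
    (B0 : DB G P0) (B1 : DB G P1)
    (H1 : ∀ φ : P1 →ₗ[ZG G] ZG G, φ ∘ₗ d1 = 0 → ∃ θ : P0 →ₗ[ZG G] ZG G, θ ∘ₗ d0 = φ)
    {n : ℕ} (c : Fin n → C) (hc : Subgroup.closure (Set.range c) = ⊤) (x0 : P0) (hx0 : ε x0 = 1)
    (y : Fin n → P1) (hy : ∀ k, d0 (y k) = (single (c k : G) 1 : ZG G) • x0 - x0)
    {J : Type} [Fintype J] (a : J → D) (q : J → Du w C P1)
    (hcoc : ∀ z, ∑ j, a j * ι (pr w C ((q j).ev (d1 z))) = 0)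
    (hev : ∀ k, ∑ j, a j * ι (pr w C ((q j).ev (y k))) = 0)
    (μ : Du w C P1 →ₗ[ZG C] ZG C) (hμ : ∀ t, μ (Du.map w C d0 t) = 0) :
    ∑ j, a j * ι (μ (q j)) = 0 := by
  classical
  let κ : C → D := fun g => ι (single g⁻¹ (w g))
  have hκ1 : ∀ g : C, κ g⁻¹ * κ g = 1 := by
    intro g
    simp only [κ]
    rw [← map_mul, single_mul_single, Subgroup.coe_inv, w_inv_mul]
    simp [← one_def]
  let Φ : P1 →+ D := AddMonoidHom.mk' (fun x => ∑ j, a j * ι (pr w C ((q j).ev x)))
    fun x x' => by simp [mul_add, Finset.sum_add_distrib]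
  have hΦ : ∀ x, Φ x = ∑ j, a j * ι (pr w C ((q j).ev x)) := fun _ => rfl
  have Φsm : ∀ (g : C) x, Φ ((single (g : G) 1 : ZG G) • x) = Φ x * κ g := by
    intro g x
    rw [hΦ, hΦ, Finset.sum_mul]
    refine Finset.sum_congr rfl fun j _ => ?_
    rw [map_smul, smul_eq_mul, pr_mul_left, map_mul, mul_assoc]
  have Φwd : ∀ x x', d0 x = d0 x' → Φ x = Φ x' := by
    intro x x' h
    obtain ⟨z, hz⟩ := (ex1 (x - x')).mp (by rw [map_sub, h, sub_self])
    rw [← sub_eq_zero, ← map_sub, ← hz]
    exact hcoc z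
  have Φfin : ∀ x, ((fun g : G => (g : G ⧸ C)) ''
      {g | Φ ((single g⁻¹ 1 : ZG G) • x) ≠ 0}).Finite := by
    intro x
    refine (Set.finite_iUnion fun j => pr_finite (w := w) (C := C) ((q j).ev x)).subset ?_
    rintro _ ⟨g, hg, rfl⟩
    obtain ⟨j, -, hj⟩ := Finset.exists_ne_zero_of_sum_ne_zero hg
    refine Set.mem_iUnion.mpr ⟨j, g, fun h => hj ?_, rfl⟩
    rw [map_smul, smul_eq_mul, h, map_zero, mul_zero]
  choose ℓ hℓ using fun x : P0 => (ex0 (x - ε x • x0)).mp (by simp [hx0])
  let Ψ : P0 →+ D := AddMonoidHom.mk' (fun x => Φ (ℓ x)) fun x x' => by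
    rw [← map_add]
    apply Φwd
    rw [map_add, hℓ, hℓ, hℓ, map_add, add_smul]
    abel
  have Ψd : ∀ x, Ψ (d0 x) = Φ x := fun x => Φwd _ _ (by rw [hℓ, ex0.apply_apply_eq_zero]; simp)
  have Ψ0 : Ψ x0 = 0 := by
    have := Φwd (ℓ x0) 0 (by rw [hℓ, hx0]; simp)
    rwa [map_zero] at this
  have Ψx : ∀ x, Ψ x = Φ (ℓ x) := fun _ => rfl
  have Ψsm0 : ∀ (g : G) x, Ψ ((single g 1 : ZG G) • x) =
      Φ ((single g 1 : ZG G) • ℓ x) + ε x • Ψ ((single g 1 : ZG G) • x0) := by
    intro g x
    rw [← Ψd, d0.map_smul, hℓ, smul_sub, smul_comm, map_sub, map_zsmul, sub_add_cancel]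
  have Ψc : ∀ g : C, Ψ ((single (g : G) 1 : ZG G) • x0) = 0 := by
    have hmul : ∀ g g' : C, Ψ ((single ((g * g' : C) : G) 1 : ZG G) • x0) =
        Ψ ((single (g' : G) 1 : ZG G) • x0) * κ g + Ψ ((single (g : G) 1 : ZG G) • x0) := by
      intro g g'
      have := Ψsm0 g ((single (g' : G) 1 : ZG G) • x0)
      rw [smul_smul, single_mul_single, one_mul, hε, hx0, one_smul, Φsm, ← Ψx] at this
      exact this
    intro g
    have hg : g ∈ Subgroup.closure (Set.range c) := hc ▸ Subgroup.mem_top g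
    induction hg using Subgroup.closure_induction with
    | mem g hg =>
      obtain ⟨k, rfl⟩ := hg
      have := Ψd (y k)
      rw [hy, map_sub, Ψ0, sub_zero] at this
      rw [this]
      exact hev k
    | one => simpa [← one_def] using Ψ0
    | mul g g' _ _ hg hg' => rw [hmul, hg, hg', zero_mul, add_zero]
    | inv g _ hg =>
      have := hmul g⁻¹ g
      rw [hg, zero_mul, zero_add, inv_mul_cancel] at this
      rw [← this]
      simpa [← one_def] using Ψ0
  have Ψsm : ∀ (g : C) x, Ψ ((single (g : G) 1 : ZG G) • x) = Ψ x * κ g := by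
    intro g x
    rw [Ψsm0, Ψc, smul_zero, add_zero, Φsm, Ψx]
  obtain ⟨S, hS, hgen⟩ := exists_gen hε hs ex0 B0 B1
  have hlev := level S hS hgen (one_ended hε hs ex0 ex1 B0 H1)
    (fun g => Ψ ((single g⁻¹ 1 : ZG G) • x0)) (fun g : C => κ g⁻¹)
    (fun g g' => by
      rw [← Ψsm, smul_smul, single_mul_single]
      simp)
    (fun v hv g hg => by
      have h1 : κ g⁻¹ = 1 := mul_left_cancel₀ hv (by rw [hg, mul_one])
      have h2 : (single g (w ((g⁻¹ : C) : G)) : ZG C) = single 1 1 := by
        apply hι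
        rw [← one_def, map_one, ← h1]
        simp [κ]
      rcases single_inj.mp h2 with h | h
      · exact h.1
      · exact absurd h.2 one_ne_zero)
    (fun k => by
      obtain ⟨z, hz⟩ := exists_d0 hε ex0 k⁻¹ x0
      refine (Φfin z).subset (Set.image_mono fun g hg h => hg ?_)
      rw [← Ψd, d0.map_smul, hz, smul_sub, smul_smul, single_mul_single, map_sub,
        sub_eq_zero] at h
      simpa using h)
  obtain ⟨T, b, t, hrep⟩ := B0.repr (w := w) ι Ψ Ψsm fun x => by
    refine ((Φfin (ℓ x)).union hlev).subset fun v hv => ?_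
    by_contra hno
    apply hv
    have h1 : Φ ((single v.out⁻¹ 1 : ZG G) • ℓ x) = 0 := by
      by_contra h
      exact hno (Or.inl ⟨v.out, h, QuotientGroup.out_eq' v⟩)
    have h2 : Ψ ((single v.out⁻¹ 1 : ZG G) • x0) = 0 := by
      by_contra h
      exact hno (Or.inr ⟨v.out, h, QuotientGroup.out_eq' v⟩)
    rw [Ψsm0, h1, h2, smul_zero, add_zero]
  have := B1.rel ι (Finset.univ.disjSum T) (Sum.elim a fun j => -b j)
    (Sum.elim q fun j => Du.map w C d0 (t j)) (fun x => by
      rw [Finset.sum_disjSum]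
      simp only [Sum.elim_inl, Sum.elim_inr, Du.map_ev, neg_mul, Finset.sum_neg_distrib]
      rw [← hrep, ← hΦ, Ψd, add_neg_cancel]) μ
  rw [Finset.sum_disjSum] at this
  simpa [hμ] using this

theorem core [Infinite (G ⧸ C)]
    (hε : ∀ (g : G) (x : P0), ε ((single g 1 : ZG G) • x) = ε x)
    (hs : Function.Surjective ε) (ex0 : Function.Exact d0 ε) (ex1 : Function.Exact d1 d0)
    (B0 : DB G P0) (B1 : DB G P1) (B2 : DB G P2)
    (H1 : ∀ φ : P1 →ₗ[ZG G] ZG G, φ ∘ₗ d1 = 0 → ∃ θ : P0 →ₗ[ZG G] ZG G, θ ∘ₗ d0 = φ)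
    {Q : Type} [AddCommGroup Q] [Module (ZG C) Q] [Module.Projective (ZG C) Q]
    (e1 : Du w C P2 →ₗ[ZG C] Q) (η : Q →+ ℤ)
    (hη : ∀ (g : C) (x : Q), η ((single g 1 : ZG C) • x) = η x) (hηs : Function.Surjective η)
    (exη : Function.Exact e1 η) (H2 : Function.Exact (Du.map w C d1) e1)
    {n : ℕ} (c : Fin n → C) (hc : Subgroup.closure (Set.range c) = ⊤) :
    Module.Projective (ZG C) (LinearMap.ker (bd c)) ∧
      ∀ (D : Type) [DivisionRing D] (ι : ZG C →+* D), Function.Injective ι → Nontrivial C →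
        Module.Finite (ZG C) (LinearMap.ker (bd c)) := by
  classical
  have := B1.projective (w := w) (C := C)
  have := B2.projective (w := w) (C := C)
  have exb := exact_bd c hc
  obtain ⟨t0, ht0⟩ := hηs 1
  choose u hu using fun k : Fin n =>
    (exη ((single (c k) 1 - 1 : ZG C) • t0)).mp (by rw [sub_smul, one_smul, map_sub, hη, sub_self])
  let α1 : (Fin n →₀ ZG C) →ₗ[ZG C] Du w C P2 := Finsupp.linearCombination (ZG C) u
  have hα : ∀ v, e1 (α1 v) = bd c v • t0 := by
    intro v
    induction v using Finsupp.induction_linear with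
    | zero => simp
    | add a b ha hb => simp only [map_add, ha, hb, add_smul]
    | single k r => simp [α1, bd, hu, mul_smul]
  obtain ⟨β0, hβ0⟩ := exists_beta' hη
  obtain ⟨β1, hβ1⟩ := Module.projective_lifting_property (bd c).rangeRestrict
    ((β0 ∘ₗ e1).codRestrict (LinearMap.range (bd c)) fun x =>
      (exb _).mp (by rw [LinearMap.comp_apply, hβ0]; exact exη.apply_apply_eq_zero x))
    (bd c).surjective_rangeRestrict
  have hβ : ∀ x, bd c (β1 x) = β0 (e1 x) := fun x =>
    congrArg Subtype.val (LinearMap.congr_fun hβ1 x)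
  obtain ⟨s0, hs0⟩ := (exb (β0 t0 - 1)).mp (by rw [map_sub, hβ0, ht0, map_one, sub_self])
  let s1 : (Fin n →₀ ZG C) →ₗ[ZG C] LinearMap.ker (bd c) :=
    (LinearMap.id + LinearMap.toSpanSingleton (ZG C) _ s0 ∘ₗ bd c - β1 ∘ₗ α1).codRestrict _
      fun v => by
        simp only [LinearMap.mem_ker, LinearMap.sub_apply, LinearMap.comp_apply, LinearMap.id_apply,
          LinearMap.add_apply, map_add,
          LinearMap.toSpanSingleton_apply, map_sub, map_smul, hβ, hα, hs0, smul_eq_mul]
        noncomm_ring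
  have hs1 : ∀ p : LinearMap.ker (bd c), (s1 p : Fin n →₀ ZG C) = p - β1 (α1 p) := by
    intro p
    have hp : bd c p = 0 := p.2
    simp [s1, hp]
  obtain ⟨r, hr⟩ := exists_retraction (w := w) (C := C) hε hs ex0 B0 B1
  have hδδ : ∀ t, Du.map w C d1 (Du.map w C d0 t) = 0 := fun t =>
    Du.ext fun z => by simp [ex1.apply_apply_eq_zero]
  let ρ : Du w C P1 →ₗ[ZG C] Du w C P1 := LinearMap.id - Du.map w C d0 ∘ₗ r
  have hρ : LinearMap.ker (Du.map w C d1) ≤ LinearMap.ker ρ := by
    intro q hq
    obtain ⟨θ, hθ⟩ := H1 q.ev (LinearMap.ext fun z =>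
      congrArg (fun v : Du w C P2 => v.ev z) (LinearMap.mem_ker.mp hq))
    have : q = Du.map w C d0 (Du.mk w C θ) := Du.ext fun x => (LinearMap.congr_fun hθ x).symm
    rw [this]
    simp [ρ, hr]
  have hmem : ∀ p : LinearMap.ker (bd c), α1 p ∈ LinearMap.range (Du.map w C d1) := fun p =>
    (H2 _).mp (by rw [hα, show bd c p = 0 from p.2, zero_smul])
  let j : LinearMap.ker (bd c) →ₗ[ZG C] Du w C P1 :=
    (LinearMap.ker (Du.map w C d1)).liftQ ρ hρ ∘ₗ
      (Du.map w C d1).quotKerEquivRange.symm.toLinearMap ∘ₗ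
        (α1 ∘ₗ (LinearMap.ker (bd c)).subtype).codRestrict _ hmem
  have hj : ∀ p, Du.map w C d1 (j p) = α1 p := by
    intro p
    obtain ⟨q, hq⟩ := hmem p
    have h1 : (α1 ∘ₗ (LinearMap.ker (bd c)).subtype).codRestrict _ hmem p =
        ⟨Du.map w C d1 q, LinearMap.mem_range_self _ q⟩ := Subtype.ext hq.symm
    have h2 : j p = ρ q := by
      simp only [j, LinearMap.comp_apply, h1, LinearEquiv.coe_coe]
      rw [LinearMap.quotKerEquivRange_symm_apply_image]
      rfl
    rw [h2, ← hq]
    simp [ρ, hδδ]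
  let m : Du w C P1 →ₗ[ZG C] LinearMap.ker (bd c) :=
    (β1 ∘ₗ Du.map w C d1).codRestrict _ fun q => by
      rw [LinearMap.mem_ker, LinearMap.comp_apply, hβ, H2.apply_apply_eq_zero, map_zero]
  have hm : ∀ p : LinearMap.ker (bd c), m (j p) + s1 p = p := by
    intro p
    apply Subtype.ext
    rw [Submodule.coe_add, hs1]
    simp [m, hj]
  have hproj : Module.Projective (ZG C) (LinearMap.ker (bd c)) :=
    Module.Projective.of_split (j.prod (LinearMap.ker (bd c)).subtype) (m.coprod s1)
      (LinearMap.ext fun p => by simpa using hm p)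
  refine ⟨hproj, ?_⟩
  intro D _ ι hι _
  have : Infinite G := Infinite.of_surjective _ (QuotientGroup.mk_surjective (s := C))
  obtain ⟨x0, hx0⟩ := hs 1
  choose y hy using fun k : Fin n => exists_d0 hε ex0 (c k : G) x0
  refine @finite_of_rank (ZG C) D (LinearMap.ker (bd c)) _ _ _ _ hproj ι hι (n + n) fun p => ?_
  let L : (Fin (n + n + 1) → D) →ₗ[D] ((Fin n ⊕ Fin n) → D) :=
    LinearMap.pi fun k => ∑ i, (LinearMap.toSpanSingleton D D (Sum.elim
      (fun k => ι ((p i : Fin n →₀ ZG C) k)) (fun k => ι (pr w C ((j (p i)).ev (y k)))) k)) ∘ₗ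
        LinearMap.proj i
  obtain ⟨a, ha, ha0⟩ := Submodule.exists_mem_ne_zero_of_ne_bot
    (LinearMap.ker_ne_bot_of_finrank_lt (f := L) (by simp))
  have h1 : ∀ k, ∑ i, a i * ι ((p i : Fin n →₀ ZG C) k) = 0 := fun k => by
    simpa [L] using congrFun (LinearMap.mem_ker.mp ha) (Sum.inl k)
  have h2 : ∀ k, ∑ i, a i * ι (pr w C ((j (p i)).ev (y k))) = 0 := fun k => by
    simpa [L] using congrFun (LinearMap.mem_ker.mp ha) (Sum.inr k)
  refine ⟨a, ha0, fun lam => ?_⟩
  have h3 := vanish ι hι hε hs ex0 ex1 B0 B1 H1 c hc x0 hx0 y hy a (fun i => j (p i))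
    (fun z => by
      have := rel_map ι Finset.univ a (fun i => (p i : Fin n →₀ ZG C)) h1 (prAt w C z ∘ₗ α1)
      simpa only [LinearMap.comp_apply, ← hj, prAt_apply, Du.map_ev] using this)
    h2 (lam ∘ₗ m) (fun t => by
      have : m (Du.map w C d0 t) = 0 := Subtype.ext (by simp [m, hδδ])
      rw [LinearMap.comp_apply, this, map_zero])
  have h4 := rel_map ι Finset.univ a (fun i => (p i : Fin n →₀ ZG C)) h1 (lam ∘ₗ s1)
  have h5 := congrArg₂ (· + ·) h3 h4
  simp only [add_zero] at h5
  rw [← Finset.sum_add_distrib] at h5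
  rw [← h5]
  refine Finset.sum_congr rfl fun i _ => ?_
  rw [← mul_add, ← map_add, lam.comp_apply m, lam.comp_apply s1, ← lam.map_add, hm]

end Pool.Agent.Lib.MP_d98eb9_al
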