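import Mathlib

/-! Groups of type FP and Poincare duality groups. -/

namespace Pool.Agent.Lib.MP_d98eb9_al

/-- A resolution of finite length `⋯ → P 2 → P 1 → P 0 → ℤ → 0` of the trivial module `ℤ` by finitely
generated projective left `ℤ[G]`-modules. -/
structure Resol (G : Type) [Group G] where
  P : ℕ → ModuleCat.{0} (MonoidAlgebra ℤ G)
  d : ∀ n, P (n + 1) →ₗ[MonoidAlgebra ℤ G] P n
  ε : P 0 →+ ℤ
  ε_smul : ∀ (g : G) (x : P 0), ε (MonoidAlgebra.single g (1 : ℤ) • x) = ε x
  ε_surj : Function.Surjective ε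
  exact_zero : Function.Exact (d 0) ε
  exact_succ : ∀ n, Function.Exact (d (n + 1)) (d n)
  finite : ∀ n, Module.Finite (MonoidAlgebra ℤ G) (P n)
  projective : ∀ n, Module.Projective (MonoidAlgebra ℤ G) (P n)
  bounded : ∃ m, ∀ n, m ≤ n → Subsingleton (P n)

/-- `G` is of type FP. -/
def IsFP (G : Type) [Group G] : Prop := Nonempty (Resol G)

namespace Resol

variable {G : Type} [Group G] (X : Resol G)

/-- Cochains with coefficients in `ℤ[G]`. -/
abbrev Cochain (n : ℕ) : Type := X.P n →ₗ[MonoidAlgebra ℤ G] MonoidAlgebra ℤ G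

/-- The coboundary map. -/
noncomputable def δ (n : ℕ) : X.Cochain n →+ X.Cochain (n + 1) :=
  AddMonoidHom.mk' (fun f => f ∘ₗ X.d n) (fun f g => LinearMap.add_comp _ g f)

/-- Coboundaries. -/
noncomputable def coboundaries : ∀ n, AddSubgroup (X.Cochain n)
  | 0 => ⊥
  | n + 1 => (X.δ n).range

/-- The cohomology group `H^n(G; ℤ[G])`, computed from the resolution `X`. -/
abbrev H (n : ℕ) : Type := (X.δ n).ker ⧸ (X.coboundaries n).addSubgroupOf (X.δ n).ker

end Resol

/-- `G` is a Poincare duality group of dimension `n`: it is of type FP, `H^i(G; ℤ[G]) = 0` for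
`i ≠ n`, and `H^n(G; ℤ[G])` is infinite cyclic. -/
def IsPD (n : ℕ) (G : Type) [Group G] : Prop :=
  ∃ X : Resol G, (∀ i, i ≠ n → Subsingleton (X.H i)) ∧ Nonempty (X.H n ≃+ ℤ)

end Pool.Agent.Lib.MP_d98eb9_al
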