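import Mathlib
import Pool.Agent.Lib.MP_d98eb9_al.Defs
import Pool.Agent.Lib.MP_d98eb9_al.Core

/-! Finitely generated subgroups of Poincare duality groups of dimension three. -/

namespace Pool.Agent.Lib.MP_d98eb9_al

open MonoidAlgebra

theorem isFP_of_four {C : Type} [Group C] {M0 M1 M2 M3 : Type} [AddCommGroup M0] [AddCommGroup M1]
    [AddCommGroup M2] [AddCommGroup M3] [Module (ZG C) M0] [Module (ZG C) M1] [Module (ZG C) M2]
    [Module (ZG C) M3] (F0 : Module.Finite (ZG C) M0) (F1 : Module.Finite (ZG C) M1)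
    (F2 : Module.Finite (ZG C) M2) (F3 : Module.Finite (ZG C) M3)
    (Q0 : Module.Projective (ZG C) M0) (Q1 : Module.Projective (ZG C) M1)
    (Q2 : Module.Projective (ZG C) M2) (Q3 : Module.Projective (ZG C) M3)
    (f0 : M1 →ₗ[ZG C] M0) (f1 : M2 →ₗ[ZG C] M1) (f2 : M3 →ₗ[ZG C] M2) (ε : M0 →+ ℤ)
    (hε : ∀ (g : C) (x : M0), ε ((single g 1 : ZG C) • x) = ε x) (hs : Function.Surjective ε)
    (e0 : Function.Exact f0 ε) (e1 : Function.Exact f1 f0) (e2 : Function.Exact f2 f1)
    (e3 : Function.Injective f2) : IsFP C := by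
  let P : ℕ → ModuleCat.{0} (ZG C) := fun n => match n with
    | 0 => ModuleCat.of _ M0
    | 1 => ModuleCat.of _ M1
    | 2 => ModuleCat.of _ M2
    | 3 => ModuleCat.of _ M3
    | _ + 4 => ModuleCat.of _ PUnit
  let d : ∀ n, P (n + 1) →ₗ[ZG C] P n := fun n => match n with
    | 0 => f0
    | 1 => f1
    | 2 => f2
    | 3 => 0
    | _ + 4 => 0
  refine ⟨⟨P, d, ε, hε, hs, e0, fun n => ?_, fun n => ?_, fun n => ?_, 4, fun n hn => ?_⟩⟩
  · match n with
    | 0 => exact e1
    | 1 => exact e2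
    | 2 =>
      intro y
      exact ⟨fun h => ⟨0, (e3 (h.trans (map_zero f2).symm)).symm⟩, fun ⟨_, h⟩ => by
        rw [← h]
        exact map_zero f2⟩
    | 3 => exact fun y => ⟨fun _ => ⟨0, rfl⟩, fun _ => rfl⟩
    | _ + 4 => exact fun y => ⟨fun _ => ⟨0, rfl⟩, fun _ => rfl⟩
  · match n with
    | 0 => exact F0
    | 1 => exact F1
    | 2 => exact F2
    | 3 => exact F3
    | _ + 4 => exact (inferInstance : Module.Finite (ZG C) PUnit)
  · match n with
    | 0 => exact Q0
    | 1 => exact Q1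
    | 2 => exact Q2
    | 3 => exact Q3
    | _ + 4 => exact (inferInstance : Module.Projective (ZG C) PUnit)
  · obtain ⟨k, rfl⟩ := Nat.exists_eq_add_of_le' hn
    exact (inferInstance : Subsingleton PUnit)

variable {G : Type} [Group G] (X : Resol G)

theorem Resol.mem_cob {i : ℕ} (h : Subsingleton (X.H i)) (f : X.Cochain i)
    (hf : f ∘ₗ X.d i = 0) : f ∈ X.coboundaries i := by
  have : (QuotientAddGroup.mk (⟨f, hf⟩ : (X.δ i).ker) : X.H i) = 0 := Subsingleton.elim _ _
  exact AddSubgroup.mem_addSubgroupOf.mp ((QuotientAddGroup.eq_zero_iff _).mp this)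

theorem Resol.exact_Du (w : G →* ℤ) (C : Subgroup G) {i : ℕ} (h : Subsingleton (X.H (i + 1))) :
    Function.Exact (Du.map w C (X.d i)) (Du.map w C (X.d (i + 1))) := by
  intro q
  constructor
  · intro hq
    obtain ⟨θ, hθ⟩ := X.mem_cob h q.ev
      (LinearMap.ext fun z => congrArg (fun v : Du w C (X.P (i + 2)) => v.ev z) hq)
    exact ⟨Du.mk w C θ, hθ⟩
  · rintro ⟨t, rfl⟩
    exact Du.ext fun z => by simp [(X.exact_succ i).apply_apply_eq_zero]

theorem Resol.db (i : ℕ) : Nonempty (DB G (X.P i)) :=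
  have := X.finite i
  have := X.projective i
  exists_DB (X.P i)

theorem Resol.retract (w : G →* ℤ) (C : Subgroup G) {n : ℕ}
    (h : ∀ i, i ≠ n → Subsingleton (X.H i)) :
    ∃ ρ : Du w C (X.P n) →ₗ[ZG C] Du w C (X.P n), (∀ q, Du.map w C (X.d n) (ρ q) = 0) ∧
      ∀ q, Du.map w C (X.d n) q = 0 → ρ q = q := by
  obtain ⟨m, hm⟩ := X.bounded
  have key : ∀ k i, n ≤ i → m ≤ i + k →
      ∃ ρ : Du w C (X.P i) →ₗ[ZG C] Du w C (X.P i), (∀ q, Du.map w C (X.d i) (ρ q) = 0) ∧
        ∀ q, Du.map w C (X.d i) q = 0 → ρ q = q := by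
    intro k
    induction k with
    | zero =>
      intro i _ hi
      have := hm i hi
      exact ⟨0, fun q => by simp, fun q _ => Du.ext fun x => by
        rw [Subsingleton.elim x 0, map_zero, map_zero]⟩
    | succ k ih =>
      intro i hn hi
      obtain ⟨ρ, h1, h2⟩ := ih (i + 1) (by omega) (by omega)
      have ex := X.exact_Du w C (h (i + 1) (by omega))
      obtain ⟨B⟩ := X.db (i + 1)
      have := B.projective (w := w) (C := C)
      obtain ⟨σ, hσ⟩ := Module.projective_lifting_property (Du.map w C (X.d i)).rangeRestrict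
        (ρ.codRestrict (LinearMap.range (Du.map w C (X.d i))) fun q => (ex _).mp (h1 q))
        (Du.map w C (X.d i)).surjective_rangeRestrict
      have hσ' : ∀ q, Du.map w C (X.d i) (σ q) = ρ q := fun q =>
        congrArg Subtype.val (LinearMap.congr_fun hσ q)
      refine ⟨LinearMap.id - σ ∘ₗ Du.map w C (X.d i), fun q => ?_, fun q hq => by simp [hq]⟩
      rw [LinearMap.sub_apply, map_sub, LinearMap.comp_apply, hσ', h2 _ (ex.apply_apply_eq_zero q)]
      simp
  exact key m n le_rfl (by omega)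

/-- The orientation character and the invariant functional on top cocycles. -/
theorem Resol.orient {n : ℕ} (φ : X.H (n + 1) ≃+ ℤ) :
    ∃ (w : G →* ℤ) (η : (X.δ (n + 1)).ker →+ ℤ), Function.Surjective η ∧
      (∀ t, η t = 0 ↔ ∃ θ : X.Cochain n, θ ∘ₗ X.d n = t) ∧
      ∀ (g : G) (t t' : (X.δ (n + 1)).ker),
        (∀ x, t'.1 x = t.1 x * single g⁻¹ (w g)) → η t' = η t := by
  let η : (X.δ (n + 1)).ker →+ ℤ := φ.toAddMonoidHom.comp (QuotientAddGroup.mk' _)
  have hsurj : Function.Surjective η := φ.surjective.comp (QuotientAddGroup.mk'_surjective _)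
  have hker : ∀ t, η t = 0 ↔ ∃ θ : X.Cochain n, θ ∘ₗ X.d n = t := fun t =>
    (map_eq_zero_iff φ φ.injective).trans (QuotientAddGroup.eq_zero_iff t)
  let R : G → (X.δ (n + 1)).ker →+ (X.δ (n + 1)).ker := fun g => AddMonoidHom.mk'
    (fun t => ⟨MulOpposite.op (single g 1 : ZG G) • t.1, LinearMap.ext fun z => by
      have : t.1 (X.d (n + 1) z) = 0 := LinearMap.congr_fun t.2 z
      change t.1 (X.d (n + 1) z) * single g 1 = 0
      rw [this, zero_mul]⟩)
    fun a b => Subtype.ext (smul_add _ a.1 b.1)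
  have hR : ∀ g t x, (R g t).1 x = t.1 x * single g 1 := fun _ _ _ => rfl
  obtain ⟨t0, ht0⟩ := hsurj 1
  have hmul : ∀ g t, η (R g t) = η t * η (R g t0) := by
    intro g t
    obtain ⟨θ, hθ⟩ := (hker (t - η t • t0)).mp (by simp [ht0])
    have := (hker (R g (t - η t • t0))).mpr ⟨MulOpposite.op (single g 1 : ZG G) • θ,
      LinearMap.ext fun x => by rw [hR, ← hθ]; rfl⟩
    rw [map_sub, map_sub, map_zsmul, map_zsmul, sub_eq_zero] at this
    exact this
  let w : G →* ℤ :=
    { toFun := fun g => η (R g t0)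
      map_one' := by
        have : R 1 t0 = t0 := Subtype.ext (LinearMap.ext fun x => by rw [hR, ← one_def, mul_one])
        rw [this, ht0]
      map_mul' := fun g k => by
        have : R (g * k) t0 = R k (R g t0) := Subtype.ext (LinearMap.ext fun x => by
          rw [hR, hR, hR, mul_assoc, single_mul_single, one_mul])
        rw [this, hmul] }
  refine ⟨w, η, hsurj, hker, fun g t t' h => ?_⟩
  have : t' = w g • R g⁻¹ t := Subtype.ext (LinearMap.ext fun x => by
    rw [h, single_eq_zsmul, mul_smul_comm]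
    rfl)
  rw [this, map_zsmul, hmul, smul_eq_mul]
  change w g * (η t * w g⁻¹) = η t
  linear_combination η t * w_mul_inv w g

theorem main (hG : IsPD 3 G) (C : Subgroup G) (hC : C.FG) (D : Type) [DivisionRing D]
    (ι : ZG C →+* D) (hι : Function.Injective ι) : IsFP C := by
  classical
  obtain ⟨X, hX, ⟨φ⟩⟩ := hG
  obtain ⟨w, η0, hs0, hk0, hinv⟩ := X.orient φ
  obtain ⟨ρ, hρ1, hρ2⟩ := X.retract w C hX
  obtain ⟨B0⟩ := X.db 0
  obtain ⟨B1⟩ := X.db 1
  obtain ⟨B2⟩ := X.db 2
  obtain ⟨B3⟩ := X.db 3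
  let Q := LinearMap.ker (Du.map w C (X.d 3))
  let ρ' : Du w C (X.P 3) →ₗ[ZG C] Q := ρ.codRestrict Q hρ1
  have hρ' : ∀ q : Q, ρ' q = q := fun q => Subtype.ext (hρ2 q q.2)
  have p3 := B3.projective (w := w) (C := C)
  have hQ : Module.Projective (ZG C) Q :=
    Module.Projective.of_split Q.subtype ρ' (LinearMap.ext hρ')
  let e1 : Du w C (X.P 2) →ₗ[ZG C] Q := (Du.map w C (X.d 2)).codRestrict Q fun q =>
    Du.ext fun z => by simp [(X.exact_succ 2).apply_apply_eq_zero]
  let toK : Q →+ (X.δ 3).ker := AddMonoidHom.mk' (fun q => ⟨q.1.ev, q.2⟩) fun _ _ => rfl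
  let η : Q →+ ℤ := η0.comp toK
  have hη : ∀ (g : C) (x : Q), η ((single g 1 : ZG C) • x) = η x := fun g x =>
    hinv g _ _ fun z => Du.ev_single_smul g x.1 z
  have hηs : Function.Surjective η := fun k => by
    obtain ⟨t, ht⟩ := hs0 k
    exact ⟨⟨Du.mk w C t.1, t.2⟩, ht⟩
  have exη : Function.Exact e1 η := fun q =>
    (hk0 (toK q)).trans ⟨fun ⟨θ, hθ⟩ => ⟨Du.mk w C θ, Subtype.ext hθ⟩,
      fun ⟨θ, hθ⟩ => ⟨θ.ev, congrArg Subtype.val hθ⟩⟩
  have H2 : Function.Exact (Du.map w C (X.d 1)) e1 := fun q =>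
    Subtype.ext_iff.trans (X.exact_Du w C (hX 2 (by omega)) q)
  cases finite_or_infinite (G ⧸ C) with
  | inl hfin =>
    have f3 := B3.finite (w := w) (C := C)
    exact isFP_of_four (Module.Finite.of_surjective ρ' fun q => ⟨q, hρ' q⟩) B2.finite B1.finite
      B0.finite hQ B2.projective B1.projective B0.projective e1 (Du.map w C (X.d 1))
      (Du.map w C (X.d 0)) η hη hηs exη H2 (X.exact_Du w C (hX 1 (by omega)))
      ((injective_iff_map_eq_zero _).mpr fun q hq => X.mem_cob (hX 0 (by omega)) q.ev hq)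
  | inr hinf =>
    have H1 : ∀ ψ : X.P 1 →ₗ[ZG G] ZG G, ψ ∘ₗ X.d 1 = 0 →
        ∃ θ : X.P 0 →ₗ[ZG G] ZG G, θ ∘ₗ X.d 0 = ψ := fun ψ h => X.mem_cob (hX 1 (by omega)) ψ h
    have fin : ∀ {n : ℕ} (c : Fin n → C), Subgroup.closure (Set.range c) = ⊤ →
        Module.Finite (ZG C) (LinearMap.ker (bd c)) →
        Module.Projective (ZG C) (LinearMap.ker (bd c)) → IsFP C := by
      intro n c hc h1 h2
      refine isFP_of_four (M2 := LinearMap.ker (bd c)) (M3 := PUnit.{1})
        inferInstance inferInstance h1 inferInstance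
        inferInstance inferInstance h2 inferInstance (bd c) (LinearMap.ker (bd c)).subtype 0
        (aug C).toAddMonoidHom (fun g x => by simp) (fun k => ⟨single 1 k, by simp⟩)
        (exact_bd c hc) (LinearMap.exact_subtype_ker_map _) (fun y => ?_) (fun _ _ _ => rfl)
      constructor
      · intro h
        exact ⟨0, Subtype.ext h.symm⟩
      · rintro ⟨_, rfl⟩
        rfl
    have co := fun {n : ℕ} (c : Fin n → C) (hc : Subgroup.closure (Set.range c) = ⊤) =>
      core X.ε_smul X.ε_surj X.exact_zero (X.exact_succ 0) B0 B1 B2 H1 e1 η hη hηs exη H2 c hc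
    cases subsingleton_or_nontrivial C with
    | inl hsub =>
      have hc : Subgroup.closure (Set.range (Fin.elim0 : Fin 0 → C)) = ⊤ := Subsingleton.elim _ _
      exact fin _ hc inferInstance (co _ hc).1
    | inr hnt =>
      obtain ⟨T, hT⟩ := ((Group.fg_iff_subgroup_fg C).mpr hC).out
      have hc : Subgroup.closure (Set.range fun k => (T.equivFin.symm k : C)) = ⊤ := by
        rw [← hT]
        congr 1
        ext g
        exact ⟨by rintro ⟨k, rfl⟩; exact (T.equivFin.symm k).2,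
          fun h => ⟨T.equivFin ⟨g, h⟩, by simp⟩⟩
      exact fin _ hc ((co _ hc).2 D ι hι hnt) (co _ hc).1

end Pool.Agent.Lib.MP_d98eb9_al
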